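import Pool.Agent.N469.TL.Union
import Pool.Agent.Y885.TU4

set_option autoImplicit false

/-! Prime pairs whose difference is an integer near a smooth number. -/

namespace Pool.Agent.N469.TL
open Finset
open Pool.Agent.H373R2.T7
open Pool.Agent.W93.TD (HLs)
open Pool.Agent.N469.SM (SS mem_SS one_mem_SS SS_mono card_SS_le card_SS_pos)

lemma pi_one {α : Type} [DecidableEq α] (S : Finset α) (f : α → ℝ) :
    ∑ ω ∈ Fintype.piFinset (fun _ : Fin 1 => S), f (ω 0) = ∑ v ∈ S, f v := by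
  apply sum_nbij (fun ω => ω 0)
  · intro ω hω
    rw [Fintype.mem_piFinset] at hω
    exact hω 0
  · intro a _ b _ hab
    funext i
    have : i = 0 := Subsingleton.elim _ _
    rw [this]
    exact hab
  · intro v hv
    refine ⟨fun _ => v, ?_, rfl⟩
    rw [mem_coe, Fintype.mem_piFinset]
    exact fun _ => hv
  · intro ω _
    rfl

theorem sm_pair1 (μ : ℤ) (hμ : μ ≠ 0) (Kp Bc Bm A U : ℕ) (ε : ℝ) (hε : 0 < ε) (δ : ℝ) (hδ : 0 < δ) :
    ∃ N₀ : ℕ, ∀ N, N₀ ≤ N → ∀ P y, Cond δ Kp N P y → ∀ E : ℕ → Prop, ∀ _ : DecidablePred E,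
    (∃ (cc : ℤ) (M : ℕ), |cc| ≤ Bc * N ∧ M ≤ N ∧ N ≤ Bm * M ∧ ∀ v, E v → ∃ r : ℤ, |(r : ℝ)| ≤ Real.log N ^ A ∧ 0 < cc + μ * (v : ℤ) + r ∧
      ¬ HLs ε (U + A + 1) M (fun _ : Fin 1 => (cc + μ * (v : ℤ) + r).toNat)) →
    ∑ v ∈ SS P N, (if E v then 1 / ((SS P N).card : ℝ) else 0) ≤ 1 / Real.log N ^ U := by
  classical
  obtain ⟨U', hU'⟩ : ∃ U', U' = U + A + 1 := ⟨_, rfl⟩
  obtain ⟨e₁, he₁⟩ : ∃ e₁, e₁ = 2 * (Bc + 1) + μ.natAbs + 3 := ⟨_, rfl⟩
  obtain ⟨c₁, N1, h1⟩ := sm_tlaw δ hδ Kp μ.natAbs 1 (2 * (2 * U' + 5 + 1 + 2) + 6) (by omega)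
  obtain ⟨K0, h3⟩ := Pool.Agent.Y885.tl_tuples 1 2 3 c₁ (2 ^ (e₁ + 3) * Bm) U' le_rfl le_rfl (by norm_num) ε hε
  obtain ⟨N4, h4⟩ := near A U
  obtain ⟨T, hT⟩ : ∃ T : ℕ, T = 2 ^ (e₁ + 2) := ⟨_, rfl⟩
  obtain ⟨Z, hZ⟩ : ∃ Z : ℕ, Z = 2 ^ (K0 + T) := ⟨_, rfl⟩
  refine ⟨N1 + N4 + Z + 3, fun N hN P y hP E _ hE => ?_⟩
  obtain ⟨cc, M, hcc, hMN, hNM, hbad⟩ := hE
  have hk : K0 + T ≤ Nat.log 2 N := (Nat.le_log_iff_pow_le (by norm_num) (by omega)).2 (by rw [← hZ]; omega)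
  have hlog := (log_digits N (by omega)).1
  have hLN0 : 0 < Real.log N := Real.log_pos (by exact_mod_cast (by omega : 1 < N))
  have hp0 : (0 : ℝ) ≤ 1 / ((SS P N).card : ℝ) := by positivity
  have hSpos : (0 : ℝ) < ((SS P N).card : ℝ) := by exact_mod_cast card_SS_pos P (by omega)
  refine h4 N (by omega) (SS P N) _ hp0 E _ (fun r v => 0 < cc + μ * (v : ℤ) + r ∧
      ¬ HLs ε U' M (fun _ : Fin 1 => (cc + μ * (v : ℤ) + r).toNat)) (fun r v => Classical.propDecidable _) ?_ ?_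
  · intro r _ hr
    have hform : (∀ v : ℕ, (cc + μ * (v : ℤ) + r) = (cc + r) + ((1 : ℕ) : ℤ) * ((μ.natAbs : ℤ) * (v : ℤ))) ∨
        (∀ v : ℕ, (cc + μ * (v : ℤ) + r) = (cc + r) - ((1 : ℕ) : ℤ) * ((μ.natAbs : ℤ) * (v : ℤ))) := by
      rcases form 1 μ (cc + r) with h | h
      · left
        intro v
        rw [← h v]
        push_cast
        ring
      · right
        intro v
        rw [← h v]
        push_cast
        ring
    have he : 2 ^ (e₁ + 2) ≤ (Nat.log 2 N + 1) ^ 1 := by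
      rw [pow_one, ← hT]
      omega
    have l1 := h1 N (by omega) P y hP.primes hP.one hP.top hP.card (e₁ + 2) he 1 le_rfl (Nat.one_le_pow _ _ (by omega)) (cc + r)
      (fun v => cc + μ * (v : ℤ) + r) hform
    rw [show Nat.log 2 N + 1 + (e₁ + 2) = (Nat.log 2 N + 1 + e₁) + 2 by ring] at l1
    have a4 : N < 2 ^ (Nat.log 2 N + 1) := Nat.lt_pow_succ_log_self (by norm_num) N
    have hN2 : 2 ^ Nat.log 2 N ≤ N := Nat.pow_log_le_self 2 (by omega)
    have hsz : ∀ v ∈ SS P N, |cc + μ * (v : ℤ) + r| ≤ (2 : ℤ) ^ (Nat.log 2 N + 1 + e₁) := by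
      intro v hv
      have a1 := abs_val μ Bc N v cc hcc (mem_SS.1 hv).1.2
      have a3 : |(cc + μ * (v : ℤ)) + r| ≤ |cc + μ * (v : ℤ)| + |r| := abs_add_le _ _
      have a5 : (N : ℤ) ≤ (2 : ℤ) ^ (Nat.log 2 N + 1) := by exact_mod_cast a4.le
      have a6 : ((e₁ : ℕ) : ℤ) ≤ (2 : ℤ) ^ e₁ := by exact_mod_cast (Nat.lt_two_pow_self).le
      have a7 : |(cc + μ * (v : ℤ)) + r| ≤ (e₁ : ℤ) * N := by
        have : ((e₁ : ℕ) : ℤ) = 2 * (Bc + 1) + μ.natAbs + 3 := by rw [he₁]; push_cast; ring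
        rw [this]
        push_cast at a1
        have : (0 : ℤ) ≤ Bc * (N : ℤ) := by positivity
        nlinarith
      refine a7.trans ?_
      rw [pow_add, mul_comm]
      exact mul_le_mul a5 a6 (by positivity) (by positivity)
    obtain ⟨K, hK⟩ : ∃ K, K = Nat.log 2 N + 1 + e₁ := ⟨_, rfl⟩
    rw [← hK] at l1 hsz
    have hNK : (N : ℤ) ≤ (2 : ℤ) ^ K := by
      have b1 : N ≤ 2 ^ K := by
        rw [hK]
        exact a4.le.trans (Nat.pow_le_pow_right (by norm_num) (by omega))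
      exact_mod_cast b1
    have hpos : (0 : ℤ) < (2 : ℤ) ^ K := by positivity
    have hKK : (2 : ℤ) ^ (K + 2) = 4 * (2 : ℤ) ^ K := by rw [pow_add]; ring
    have key := h3 (K + 2) (by omega) ℕ inferInstance (fun _ => SS P N) (fun _ _ => 1 / ((SS P N).card : ℝ)) (fun _ v => cc + μ * (v : ℤ) + r)
      (fun _ => l1) (fun _ => by rw [sum_const, nsmul_eq_mul, mul_one_div, div_self hSpos.ne']) M
      (by
        have b1 : 2 ^ (K + 2) = 2 ^ (e₁ + 3) * 2 ^ Nat.log 2 N := by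
          rw [← pow_add]
          congr 1
          omega
        rw [b1, mul_assoc]
        exact Nat.mul_le_mul_left _ (hN2.trans hNM))
      (by
        have b1 : N ≤ 2 ^ (K + 2) := a4.le.trans (Nat.pow_le_pow_right (by norm_num) (by omega))
        omega)
      (fun _ v hv => by
        have b1 := hsz v hv
        rw [abs_le] at b1
        have b2 : (M : ℤ) ≤ N := by exact_mod_cast hMN
        push_cast
        rw [hKK]
        constructor
        · linarith [b1.1]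
        · linarith [b1.2])
      (fun ω => 0 < cc + μ * (ω 0 : ℤ) + r ∧ ¬ HLs ε U' M (fun _ : Fin 1 => (cc + μ * (ω 0 : ℤ) + r).toNat))
      (Classical.decPred _) (fun ω _ hω => ⟨fun i => by
        have : i = 0 := Subsingleton.elim _ _
        rw [this]
        exact hω.1.le, fun h => hω.2 (by
          have e : (fun i : Fin 1 => (cc + μ * (ω i : ℤ) + r).toNat) = (fun _ : Fin 1 => (cc + μ * (ω 0 : ℤ) + r).toNat) := by
            funext i
            have : i = 0 := Subsingleton.elim _ _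
            rw [this]
          rw [← e]
          exact h)⟩)
    refine (le_trans (le_of_eq ?_) key).trans ?_
    · rw [← pi_one (SS P N) (fun v : ℕ => @ite ℝ (0 < cc + μ * (v : ℤ) + r ∧ ¬ HLs ε U' M (fun _ : Fin 1 => (cc + μ * (v : ℤ) + r).toNat))
        (Classical.propDecidable _) (1 / ((SS P N).card : ℝ)) 0)]
      apply sum_congr rfl
      intro ω _
      rw [Fin.prod_univ_one]
    · apply one_div_le_one_div_of_le (by positivity)
      rw [← hU']
      apply pow_le_pow_left₀ hLN0.le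
      refine hlog.trans ?_
      exact_mod_cast (by omega : Nat.log 2 N + 1 ≤ K + 2)
  · intro v _ hEv
    rw [← hU'] at hbad
    exact hbad v hEv

lemma adm_even (a : ℕ) (ha : 2 ∣ a) : Admissible (fun _ : Fin 1 => (a : ℤ)) := by
  intro p hp
  by_cases h2 : p = 2
  · subst h2
    refine ⟨1, by omega, fun i => ?_⟩
    show ¬ ((2 : ℕ) : ℤ) ∣ 1 + (a : ℤ)
    omega
  · have hp3 : 3 ≤ p := by
      have := hp.two_le
      omega
    have h3 : ∀ m : ℤ, (p : ℤ) ∣ m → 0 < m → (p : ℤ) ≤ m := fun m hm h0 => Int.le_of_dvd h0 hm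
    by_cases h1 : (p : ℤ) ∣ 1 + a
    · refine ⟨2, fun h => ?_, fun _ h => ?_⟩
      · have := h3 2 h (by norm_num)
        omega
      · have h4 : (p : ℤ) ∣ 1 := by
          have h5 := dvd_sub h h1
          have e : (2 + (a : ℤ)) - (1 + a) = 1 := by ring
          rwa [e] at h5
        have := h3 1 h4 (by norm_num)
        omega
    · refine ⟨1, fun h => ?_, fun _ => h1⟩
      have := h3 1 h (by norm_num)
      omega

/-- a lower bound for the number of prime pairs -/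
lemma hls_low : ∃ c : ℝ, 0 < c ∧ ∀ (U M a : ℕ), 3 ≤ M → 2 ∣ a → HLs (1 / 2) U M (fun _ : Fin 1 => a) →
    c * (M / Real.log M ^ 2) ≤ (((Icc 1 M).filter (fun p : ℕ => p.Prime ∧ (p + a).Prime)).card : ℝ) := by
  obtain ⟨c, hc, hlow⟩ := singZ_low 1
  refine ⟨c / 2, by positivity, fun U M a hM ha h => ?_⟩
  obtain ⟨S, hS, -, h2⟩ := h
  have hadm := adm_even a ha
  obtain ⟨-, h3⟩ := h2 hadm
  have hcS : c ≤ S := ge_of_tendsto' hS (fun z => hlow _ hadm z)
  have hM0 : (0 : ℝ) < M := by exact_mod_cast (by omega : 0 < M)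
  have hL : 0 < Real.log M := Real.log_pos (by exact_mod_cast (by omega : 1 < M))
  have h4 := (abs_le.1 h3).1
  have e1 : Pool.Agent.H560R3.GB.primeTuples (fun _ : Fin 1 => a) M = ((Icc 1 M).filter (fun p : ℕ => p.Prime ∧ (p + a).Prime)).card := by
    unfold Pool.Agent.H560R3.GB.primeTuples
    congr 1
    apply filter_congr
    intro p _
    constructor
    · rintro ⟨q1, q2⟩
      exact ⟨q1, q2 0⟩
    · rintro ⟨q1, q2⟩
      exact ⟨q1, fun _ => q2⟩
  rw [e1] at h4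
  have h5 : (0 : ℝ) < M / Real.log M ^ 2 := by positivity
  norm_num at h4
  have h6 : c * (M / Real.log M ^ 2) ≤ S * (M / Real.log M ^ 2) := mul_le_mul_of_nonneg_right hcS h5.le
  linarith

end Pool.Agent.N469.TL
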