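import Pool.Agent.N469.TL.Union
import Pool.Agent.Y885.WI2

set_option autoImplicit false

/-! Goldbach pairs in all windows, for all the even integers near almost all smooth numbers. -/

namespace Pool.Agent.N469.TL
open Finset
open Pool.Agent.H373R2.T7
open Pool.Agent.N469.SM (SS mem_SS one_mem_SS SS_mono card_SS_le card_SS_pos)

theorem sm_windows (μ : ℤ) (hμ : μ ≠ 0) (Kp Bc A W U m₀ : ℕ) (ε : ℝ) (hε : 0 < ε) (Pr : ℕ → Prop)
    (hPr : ∀ m : ℕ, m₀ ≤ m → 2 ∣ m → Pool.Agent.W93.PG.WinP ε A m → Pr m) (δ : ℝ) (hδ : 0 < δ) :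
    ∃ N₀ : ℕ, ∀ N, N₀ ≤ N → ∀ P y, Cond δ Kp N P y → ∀ E : ℕ → Prop, ∀ _ : DecidablePred E,
    (∃ cc : ℤ, |cc| ≤ Bc * N ∧ ∀ v, E v → ∃ r : ℤ, |(r : ℝ)| ≤ Real.log N ^ W ∧ 0 < cc + μ * (v : ℤ) + r ∧
      2 ∣ cc + μ * (v : ℤ) + r ∧ ¬ Pr (cc + μ * (v : ℤ) + r).toNat) →
    ∑ v ∈ SS P N, (if E v then 1 / ((SS P N).card : ℝ) else 0) ≤ 1 / Real.log N ^ U := by
  classical
  obtain ⟨U', hU'⟩ : ∃ U', U' = U + W + 1 := ⟨_, rfl⟩
  obtain ⟨e₁, he₁⟩ : ∃ e₁, e₁ = 2 * (Bc + 1) + μ.natAbs + 3 := ⟨_, rfl⟩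
  obtain ⟨c₁, N1, h1⟩ := sm_tlaw δ hδ Kp μ.natAbs 1 (U' + 3) (by omega)
  obtain ⟨V, hV⟩ := Pool.Agent.Y885.tl_windows 2 le_rfl 3 c₁ A U' m₀ (by norm_num) ε hε Pr hPr
  obtain ⟨c₂, N2, h2⟩ := sm_tlaw δ hδ Kp μ.natAbs 1 V (by omega)
  obtain ⟨K0, h3⟩ := hV c₂
  obtain ⟨N4, h4⟩ := near W U
  obtain ⟨T, hT⟩ : ∃ T : ℕ, T = 2 ^ (e₁ + 2) := ⟨_, rfl⟩
  obtain ⟨Z, hZ⟩ : ∃ Z : ℕ, Z = 2 ^ (K0 + T) := ⟨_, rfl⟩
  refine ⟨N1 + N2 + N4 + Z + 3, fun N hN P y hP E _ hE => ?_⟩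
  obtain ⟨cc, hcc, hbad⟩ := hE
  have hk : K0 + T ≤ Nat.log 2 N := (Nat.le_log_iff_pow_le (by norm_num) (by omega)).2 (by rw [← hZ]; omega)
  have hlog := (log_digits N (by omega)).1
  have hLN0 : 0 < Real.log N := Real.log_pos (by exact_mod_cast (by omega : 1 < N))
  have hp0 : (0 : ℝ) ≤ 1 / ((SS P N).card : ℝ) := by positivity
  refine h4 N (by omega) (SS P N) _ hp0 E _ (fun r v => 0 < cc + μ * (v : ℤ) + r ∧
      2 ∣ cc + μ * (v : ℤ) + r ∧ ¬ Pr (cc + μ * (v : ℤ) + r).toNat) (fun r v => Classical.propDecidable _) ?_ ?_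
  · intro r _ hr
    have hform : (∀ v : ℕ, (cc + μ * (v : ℤ) + r) = (cc + r) + ((1 : ℕ) : ℤ) * ((μ.natAbs : ℤ) * (v : ℤ))) ∨
        (∀ v : ℕ, (cc + μ * (v : ℤ) + r) = (cc + r) - ((1 : ℕ) : ℤ) * ((μ.natAbs : ℤ) * (v : ℤ))) := by
      rcases form 1 μ (cc + r) with h | h
      · left
        intro v
        rw [← h v]
        push_cast
        ring
      · right
        intro v
        rw [← h v]
        push_cast
        ring
    have he : 2 ^ (e₁ + 2) ≤ (Nat.log 2 N + 1) ^ 1 := by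
      rw [pow_one, ← hT]
      omega
    have l1 := h1 N (by omega) P y hP.primes hP.one hP.top hP.card (e₁ + 2) he 1 le_rfl (Nat.one_le_pow _ _ (by omega)) (cc + r)
      (fun v => cc + μ * (v : ℤ) + r) hform
    have l2 := h2 N (by omega) P y hP.primes hP.one hP.top hP.card (e₁ + 2) he 1 le_rfl (Nat.one_le_pow _ _ (by omega)) (cc + r)
      (fun v => cc + μ * (v : ℤ) + r) hform
    rw [show Nat.log 2 N + 1 + (e₁ + 2) = (Nat.log 2 N + 1 + e₁) + 2 by ring] at l1 l2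
    have key := h3 (Nat.log 2 N + 1 + e₁) (by omega) ℕ _ _ _ l1 l2 (by
      intro v hv
      have a1 := abs_val μ Bc N v cc hcc (mem_SS.1 hv).1.2
      have a3 : |(cc + μ * (v : ℤ)) + r| ≤ |cc + μ * (v : ℤ)| + |r| := abs_add_le _ _
      have a4 : N < 2 ^ (Nat.log 2 N + 1) := Nat.lt_pow_succ_log_self (by norm_num) N
      have a5 : (N : ℤ) ≤ (2 : ℤ) ^ (Nat.log 2 N + 1) := by exact_mod_cast a4.le
      have a6 : ((e₁ : ℕ) : ℤ) ≤ (2 : ℤ) ^ e₁ := by exact_mod_cast (Nat.lt_two_pow_self).le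
      have a7 : |(cc + μ * (v : ℤ)) + r| ≤ (e₁ : ℤ) * N := by
        have : ((e₁ : ℕ) : ℤ) = 2 * (Bc + 1) + μ.natAbs + 3 := by rw [he₁]; push_cast; ring
        rw [this]
        push_cast at a1
        have : (0 : ℤ) ≤ Bc * (N : ℤ) := by positivity
        nlinarith
      have a8 : |(cc + μ * (v : ℤ)) + r| ≤ (2 : ℤ) ^ (Nat.log 2 N + 1 + e₁) := by
        refine a7.trans ?_
        rw [pow_add, mul_comm]
        exact mul_le_mul a5 a6 (by positivity) (by positivity)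
      exact_mod_cast a8) (fun v => 0 < cc + μ * (v : ℤ) + r ∧
      2 ∣ cc + μ * (v : ℤ) + r ∧ ¬ Pr (cc + μ * (v : ℤ) + r).toNat) (Classical.decPred _) (fun v _ hv => hv)
    refine (le_trans (le_of_eq ?_) key).trans ?_
    · apply sum_congr rfl
      intro v _
      congr
    · apply one_div_le_one_div_of_le (by positivity)
      rw [← hU']
      apply pow_le_pow_left₀ hLN0.le
      refine hlog.trans ?_
      push_cast
      linarith [Nat.cast_nonneg (α := ℝ) e₁]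
  · intro v _ hEv
    exact hbad v hEv

end Pool.Agent.N469.TL
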