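import Pool.Agent.N469.TL.Var

set_option autoImplicit false

/-! From the variance of primes in the reduced classes to upper bounds for the number of primes in intervals (from the starting
file TH872/GQ/BT, for the same functions `psiAP`, `G` in `TH894.PV`). -/

namespace Pool.Agent.N469.TL.BT
open Finset
open Pool.Agent.TH894.PV (psiAP G)

/-- the number of the primes `p` with `x - y < p ≤ x` and `p ≡ a (mod q)`, for `0 ≤ y ≤ x` and `0 ≤ a < q` -/
noncomputable def cnt (x y : ℝ) (q a : ℕ) : ℕ :=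
  ((Ioc ⌊x - y⌋₊ ⌊x⌋₊).filter (fun p => p.Prime ∧ p % q = a)).card

lemma psi_mono (q a : ℕ) (x x' : ℝ) (h : x ≤ x') : psiAP x q a ≤ psiAP x' q a := by
  unfold psiAP
  apply sum_le_sum_of_subset_of_nonneg
  · intro n hn
    rw [mem_filter, mem_Icc] at hn ⊢
    exact ⟨⟨hn.1.1, hn.1.2.trans (Nat.floor_le_floor h)⟩, hn.2⟩
  · intro _ _ _
    exact ArithmeticFunction.vonMangoldt_nonneg

/-- the primes of an interval beyond `q` -/
lemma primes_le (q a : ℕ) (hq : 2 ≤ q) (z x : ℝ) (hz : (q : ℝ) ≤ z) (hzx : z ≤ x) :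
    Real.log q * (((Ioc ⌊z⌋₊ ⌊x⌋₊).filter (fun p => p.Prime ∧ p % q = a)).card : ℝ) ≤ psiAP x q a - psiAP z q a := by
  have h1 : psiAP z q a + ∑ p ∈ (Ioc ⌊z⌋₊ ⌊x⌋₊).filter (fun p => p.Prime ∧ p % q = a), ArithmeticFunction.vonMangoldt p ≤
      psiAP x q a := by
    unfold psiAP
    rw [← sum_union (by
      rw [disjoint_left]
      intro n hn hn'
      rw [mem_filter, mem_Icc] at hn
      rw [mem_filter, mem_Ioc] at hn'
      omega)]
    apply sum_le_sum_of_subset_of_nonneg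
    · intro n hn
      rw [mem_union, mem_filter, mem_filter, mem_Icc, mem_Ioc] at hn
      rw [mem_filter, mem_Icc]
      rcases hn with hn | hn
      · exact ⟨⟨hn.1.1, hn.1.2.trans (Nat.floor_le_floor hzx)⟩, hn.2⟩
      · exact ⟨⟨hn.2.1.pos, hn.1.2⟩, hn.2.2⟩
    · intro _ _ _
      exact ArithmeticFunction.vonMangoldt_nonneg
  have h2 : Real.log q * (((Ioc ⌊z⌋₊ ⌊x⌋₊).filter (fun p => p.Prime ∧ p % q = a)).card : ℝ) ≤
      ∑ p ∈ (Ioc ⌊z⌋₊ ⌊x⌋₊).filter (fun p => p.Prime ∧ p % q = a), ArithmeticFunction.vonMangoldt p := by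
    rw [mul_comm, ← nsmul_eq_mul]
    apply card_nsmul_le_sum
    intro p hp
    rw [mem_filter, mem_Ioc] at hp
    rw [ArithmeticFunction.vonMangoldt_apply_prime hp.2.1]
    apply Real.log_le_log (by exact_mod_cast (by omega : 0 < q))
    have h3 : q ≤ ⌊z⌋₊ := Nat.le_floor hz
    exact_mod_cast (by omega : q ≤ p)
  linarith

/-- at most one of the primes is at most `q` -/
lemma cnt_le (q a : ℕ) (hq : 2 ≤ q) (ha : Nat.Coprime a q) (x y : ℝ) :
    cnt x y q a ≤ 1 + ((Ioc ⌊max (x - y) q⌋₊ ⌊x⌋₊).filter (fun p => p.Prime ∧ p % q = a)).card := by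
  have h1 : (Ioc ⌊x - y⌋₊ ⌊x⌋₊).filter (fun p => p.Prime ∧ p % q = a) ⊆
      insert a ((Ioc ⌊max (x - y) q⌋₊ ⌊x⌋₊).filter (fun p => p.Prime ∧ p % q = a)) := by
    intro p hp
    rw [mem_filter, mem_Ioc] at hp
    rw [mem_insert, mem_filter, mem_Ioc]
    rcases lt_or_ge ⌊max (x - y) q⌋₊ p with h | h
    · exact Or.inr ⟨⟨h, hp.1.2⟩, hp.2⟩
    · left
      rcases le_total (x - y) q with h2 | h2
      · rw [max_eq_right h2, Nat.floor_natCast] at h
        rcases h.eq_or_lt with h3 | h3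
        · exfalso
          have h4 := hp.2.2
          rw [h3, Nat.mod_self] at h4
          rw [← h4] at ha
          rw [Nat.coprime_zero_left] at ha
          omega
        · have h4 := hp.2.2
          rw [Nat.mod_eq_of_lt h3] at h4
          exact h4
      · rw [max_eq_left h2] at h
        omega
  have h2 := card_le_card h1
  have h3 := card_insert_le a ((Ioc ⌊max (x - y) q⌋₊ ⌊x⌋₊).filter (fun p => p.Prime ∧ p % q = a))
  unfold cnt
  omega

/-- Chebyshev's inequality -/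
lemma cheb (q : ℕ) (x τ : ℝ) (hτ : 0 < τ) :
    (((range q).filter (fun a => Nat.Coprime a q ∧ τ < |psiAP x q a - x / (Nat.totient q : ℝ)|)).card : ℝ) * τ ^ 2 ≤ G x q := by
  unfold G
  rw [← nsmul_eq_mul]
  calc ((range q).filter (fun a => Nat.Coprime a q ∧ τ < |psiAP x q a - x / (Nat.totient q : ℝ)|)).card • τ ^ 2 ≤
        ∑ a ∈ (range q).filter (fun a => Nat.Coprime a q ∧ τ < |psiAP x q a - x / (Nat.totient q : ℝ)|),
          (psiAP x q a - x / (Nat.totient q : ℝ)) ^ 2 := by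
        apply card_nsmul_le_sum
        intro a ha
        rw [mem_filter] at ha
        rw [← sq_abs (psiAP x q a - x / (Nat.totient q : ℝ))]
        exact pow_le_pow_left₀ hτ.le ha.2.2.le 2
    _ ≤ _ := by
        apply sum_le_sum_of_subset_of_nonneg
        · intro a ha
          rw [mem_filter] at ha ⊢
          exact ⟨ha.1, ha.2.1⟩
        · intro _ _ _
          positivity

/-- the main step: a class which is good at all points of the grid -/
lemma class_good (q a : ℕ) (hq : 2 ≤ q) (ha : Nat.Coprime a q) (η L δ : ℝ) (B D J : ℕ) (hη : 0 < η) (hL : L = Real.log q)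
    (hL1 : 1 ≤ L) (hLη : 1 ≤ η * L) (hB : 2 ≤ B) (hδ : δ = η * (q * L ^ B)) (hJ : L ^ D / η < J)
    (hgood : ∀ j ≤ J, |psiAP (q + j * δ) q a - (q + j * δ) / (Nat.totient q : ℝ)| ≤ δ / (Nat.totient q : ℝ))
    (x y : ℝ) (hy : q * L ^ B ≤ y) (hyx : y ≤ x) (hx : x ≤ q * L ^ (B + D)) :
    (cnt x y q a : ℝ) ≤ (1 + 5 * η) * (y / (Nat.totient q * L)) := by
  obtain ⟨φ, hφ⟩ : ∃ φ : ℝ, φ = (Nat.totient q : ℝ) := ⟨_, rfl⟩
  have hφ0 : 0 < φ := by
    rw [hφ]
    exact_mod_cast Nat.totient_pos.2 (by omega)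
  have hφq : φ ≤ q := by
    rw [hφ]
    exact_mod_cast Nat.totient_le q
  rw [← hφ] at hgood ⊢
  have hq0 : (0 : ℝ) < q := by exact_mod_cast (by omega : 0 < q)
  have hL0 : 0 < L := by linarith
  have hLB1 : 1 ≤ L ^ B := one_le_pow₀ hL1
  have hLB2 : L ^ 2 ≤ L ^ B := pow_le_pow_right₀ hL1 hB
  have hδ0 : 0 < δ := by rw [hδ]; positivity
  have hqy : (q : ℝ) ≤ y := by nlinarith
  have hδy : δ ≤ η * y := by rw [hδ]; exact mul_le_mul_of_nonneg_left hy hη.le
  -- points of the grid near a given point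
  have hpt : ∀ u : ℝ, (q : ℝ) ≤ u → u ≤ x → ∃ i : ℕ, i + 1 ≤ J ∧ (q : ℝ) + i * δ ≤ u ∧ u ≤ q + (i + 1 : ℕ) * δ := by
    intro u hu1 hu2
    obtain ⟨i, hi⟩ : ∃ i : ℕ, i = ⌊(u - q) / δ⌋₊ := ⟨_, rfl⟩
    have h0 : 0 ≤ (u - q) / δ := div_nonneg (by linarith) hδ0.le
    have h1 : (i : ℝ) ≤ (u - q) / δ := by rw [hi]; exact Nat.floor_le h0
    have h2 : (u - q) / δ < i + 1 := by rw [hi]; exact Nat.lt_floor_add_one _
    rw [le_div_iff₀ hδ0] at h1
    have h3 : (u - q) / δ ≤ L ^ D / η := by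
      rw [div_le_div_iff₀ hδ0 hη, hδ]
      have h4 : u - q ≤ q * L ^ (B + D) := by linarith
      calc (u - q) * η ≤ (q * L ^ (B + D)) * η := mul_le_mul_of_nonneg_right h4 hη.le
        _ = L ^ D * (η * (q * L ^ B)) := by rw [pow_add]; ring
    rw [div_lt_iff₀ hδ0] at h2
    refine ⟨i, ?_, by linarith, by push_cast; linarith⟩
    have h5 : (i : ℝ) < J := by
      have h6 : (i : ℝ) ≤ (u - q) / δ := by rw [le_div_iff₀ hδ0]; exact h1
      linarith
    have h7 : i < J := by exact_mod_cast h5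
    omega
  -- the upper end
  obtain ⟨i, hi1, hi2, hi3⟩ := hpt x (by linarith) le_rfl
  have hup : psiAP x q a ≤ x / φ + 2 * (δ / φ) := by
    have h1 := psi_mono q a x _ hi3
    have h2 := (abs_le.1 (hgood (i + 1) hi1)).2
    have h3 : ((q : ℝ) + (i + 1 : ℕ) * δ) / φ ≤ x / φ + δ / φ := by
      rw [← add_div]
      apply div_le_div_of_nonneg_right _ hφ0.le
      push_cast
      linarith
    linarith
  -- the lower end
  obtain ⟨z, hz⟩ : ∃ z : ℝ, z = max (x - y) q := ⟨_, rfl⟩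
  have hzq : (q : ℝ) ≤ z := by rw [hz]; exact le_max_right _ _
  have hzy : x - y ≤ z := by rw [hz]; exact le_max_left _ _
  have hzx : z ≤ x := by
    rw [hz]
    exact max_le (by linarith) (by linarith)
  obtain ⟨k, hk1, hk2, hk3⟩ := hpt z hzq hzx
  have hlow : z / φ - 2 * (δ / φ) ≤ psiAP z q a := by
    have h1 := psi_mono q a _ z hk2
    have h2 := (abs_le.1 (hgood k (by omega))).1
    have h3 : z / φ - δ / φ ≤ ((q : ℝ) + k * δ) / φ := by
      rw [← sub_div]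
      apply div_le_div_of_nonneg_right _ hφ0.le
      push_cast at hk3
      linarith
    linarith
  have h1 := primes_le q a hq z x hzq hzx
  have h2 := cnt_le q a hq ha x y
  rw [← hz] at h2
  rw [← hL] at h1
  obtain ⟨c, hc⟩ : ∃ c, c = ((Ioc ⌊z⌋₊ ⌊x⌋₊).filter (fun p => p.Prime ∧ p % q = a)).card := ⟨_, rfl⟩
  rw [← hc] at h1 h2
  have h3 : (cnt x y q a : ℝ) ≤ 1 + c := by exact_mod_cast h2
  have h4 : L * (c : ℝ) ≤ (1 + 4 * η) * (y / φ) := by
    have e1 : (x - z) / φ ≤ y / φ := div_le_div_of_nonneg_right (by linarith) hφ0.le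
    have e2 : δ / φ ≤ η * (y / φ) := by
      rw [← mul_div_assoc]
      exact div_le_div_of_nonneg_right hδy hφ0.le
    have e3 : x / φ - z / φ = (x - z) / φ := by rw [sub_div]
    linarith
  have h5 : (c : ℝ) ≤ (1 + 4 * η) * (y / (φ * L)) := by
    have e1 : (1 + 4 * η) * (y / (φ * L)) = ((1 + 4 * η) * (y / φ)) / L := by
      field_simp
    rw [e1, le_div_iff₀ hL0]
    linarith
  have h6 : 1 ≤ η * (y / (φ * L)) := by
    rw [← mul_div_assoc, le_div_iff₀ (by positivity), one_mul]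
    have e1 : φ * L ≤ q * L := mul_le_mul_of_nonneg_right hφq hL0.le
    have e2 : q * L ≤ η * (q * L ^ B) := by
      calc (q : ℝ) * L = (q * L) * 1 := by ring
        _ ≤ (q * L) * (η * L) := mul_le_mul_of_nonneg_left hLη (by positivity)
        _ = η * (q * L ^ 2) := by ring
        _ ≤ η * (q * L ^ B) := by
            apply mul_le_mul_of_nonneg_left _ hη.le
            exact mul_le_mul_of_nonneg_left hLB2 hq0.le
    have e3 : η * (q * L ^ B) ≤ η * y := mul_le_mul_of_nonneg_left hy hη.le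
    linarith
  linarith

open Classical in
/-- from the variance to almost all classes -/
theorem det (ε : ℝ) (hε : 0 < ε) (hε1 : ε ≤ 1) (B D U : ℕ) (hB : 2 * D + U + 2 ≤ B) : ∃ Q₀ : ℕ, ∀ q : ℕ, Q₀ ≤ q →
    (∀ x : ℝ, (q : ℝ) ≤ x → x ≤ q * Real.log q ^ (B + D + 1) → G x q ≤ 2 * (x * Real.log q)) →
    (((range q).filter (fun a => Nat.Coprime a q ∧ ∃ x y : ℝ, q * Real.log q ^ B ≤ y ∧ y ≤ x ∧
      x ≤ q * Real.log q ^ (B + D) ∧ (1 + ε) * (y / (Nat.totient q * Real.log q)) < cnt x y q a)).card : ℝ) ≤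
      Nat.totient q / Real.log q ^ U := by
  obtain ⟨η, hη⟩ : ∃ η, η = ε / 5 := ⟨_, rfl⟩
  have hη0 : 0 < η := by rw [hη]; positivity
  have hη1 : η ≤ 1 := by rw [hη]; linarith
  have hε5 : ε = 5 * η := by rw [hη]; ring
  obtain ⟨n1, h1⟩ := Pool.Agent.H373R2.T7.ev_L' (3 + 1 / η + 18 / η ^ 3)
  refine ⟨n1 + 2, fun q hq hvar => ?_⟩
  have hq2 : 2 ≤ q := by omega
  have hLbig := h1 q (by omega)
  obtain ⟨L, hL⟩ : ∃ L, L = Real.log q := ⟨_, rfl⟩
  rw [← hL] at hLbig hvar ⊢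
  have hi1 : 0 < 1 / η := by positivity
  have hi2 : 0 < 18 / η ^ 3 := by positivity
  have hL3 : 3 ≤ L := by linarith
  have hL1 : 1 ≤ L := by linarith
  have hL0 : 0 < L := by linarith
  have hLη : 1 ≤ η * L := by
    have : 1 / η ≤ L := by linarith
    rw [div_le_iff₀ hη0] at this
    linarith
  have hL18 : 18 ≤ η ^ 3 * L := by
    have : 18 / η ^ 3 ≤ L := by linarith
    rw [div_le_iff₀ (by positivity)] at this
    linarith
  obtain ⟨φ, hφ⟩ : ∃ φ : ℝ, φ = (Nat.totient q : ℝ) := ⟨_, rfl⟩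
  have hφ0 : 0 < φ := by
    rw [hφ]
    exact_mod_cast Nat.totient_pos.2 (by omega)
  have hφq : φ ≤ q := by
    rw [hφ]
    exact_mod_cast Nat.totient_le q
  have hq0 : (0 : ℝ) < q := by exact_mod_cast (by omega : 0 < q)
  obtain ⟨P, hP⟩ : ∃ P, P = L ^ B := ⟨_, rfl⟩
  obtain ⟨R, hR⟩ : ∃ R, R = L ^ D := ⟨_, rfl⟩
  obtain ⟨S, hS⟩ : ∃ S, S = L ^ U := ⟨_, rfl⟩
  have hP1 : 1 ≤ P := by rw [hP]; exact one_le_pow₀ hL1
  have hR1 : 1 ≤ R := by rw [hR]; exact one_le_pow₀ hL1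
  have hS1 : 1 ≤ S := by rw [hS]; exact one_le_pow₀ hL1
  have hPbig : R ^ 2 * S * L ^ 2 ≤ P := by
    rw [hP, hR, hS]
    calc (L ^ D) ^ 2 * L ^ U * L ^ 2 = L ^ (2 * D + U + 2) := by ring
      _ ≤ L ^ B := pow_le_pow_right₀ hL1 hB
  obtain ⟨δ, hδ⟩ : ∃ δ, δ = η * (q * L ^ B) := ⟨_, rfl⟩
  have hδ0 : 0 < δ := by rw [hδ]; positivity
  obtain ⟨J, hJ⟩ : ∃ J : ℕ, J = ⌊L ^ D / η⌋₊ + 1 := ⟨_, rfl⟩
  have hJ1 : L ^ D / η < J := by rw [hJ]; push_cast; exact Nat.lt_floor_add_one _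
  have hJ2 : (J : ℝ) ≤ R / η + 1 := by
    rw [hJ, hR]
    push_cast
    have := Nat.floor_le (show 0 ≤ L ^ D / η by positivity)
    linarith
  have hRη : 1 ≤ R / η := by
    rw [le_div_iff₀ hη0]
    linarith
  -- the grid
  have hX : ∀ j : ℕ, j ≤ J → (q : ℝ) + j * δ ≤ 3 * (q * (P * R)) := by
    intro j hj
    have h2 : (j : ℝ) ≤ J := by exact_mod_cast hj
    have h3 : (j : ℝ) * δ ≤ (R / η + 1) * δ := mul_le_mul_of_nonneg_right (h2.trans hJ2) hδ0.le
    have h4 : (R / η + 1) * δ = q * (P * R) + η * (q * P) := by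
      rw [hδ, ← hP]
      field_simp
    have h5 : (q : ℝ) ≤ q * (P * R) := by
      have : 1 ≤ P * R := by nlinarith
      nlinarith
    have h6 : η * (q * P) ≤ q * (P * R) := by
      have e1 : q * P ≤ q * (P * R) := by
        apply mul_le_mul_of_nonneg_left _ hq0.le
        nlinarith
      have e2 : 0 < (q : ℝ) * P := by positivity
      nlinarith
    linarith
  have hcard : ∀ j ∈ range (J + 1), (((range q).filter (fun a => Nat.Coprime a q ∧ δ / φ <
      |psiAP (q + j * δ) q a - (q + j * δ) / (Nat.totient q : ℝ)|)).card : ℝ) ≤ 6 * (q * (P * R) * L) / (δ / φ) ^ 2 := by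
    intro j hj
    rw [mem_range] at hj
    have h2 := hX j (by omega)
    have h3 := cheb q (q + j * δ) (δ / φ) (by positivity)
    rw [le_div_iff₀ (by positivity)]
    refine h3.trans ?_
    have h4 := hvar (q + j * δ) (by
      have : 0 ≤ (j : ℝ) * δ := by positivity
      linarith) (by
      refine h2.trans ?_
      have e1 : L ^ (B + D + 1) = P * R * L := by rw [hP, hR]; ring
      rw [e1]
      have e2 : 0 ≤ (q : ℝ) * (P * R) := by positivity
      nlinarith)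
    refine h4.trans ?_
    have h5 : (q + j * δ) * L ≤ 3 * (q * (P * R)) * L := mul_le_mul_of_nonneg_right h2 hL0.le
    linarith
  have hsub : (range q).filter (fun a => Nat.Coprime a q ∧ ∃ x y : ℝ, q * L ^ B ≤ y ∧ y ≤ x ∧
      x ≤ q * L ^ (B + D) ∧ (1 + ε) * (y / (Nat.totient q * L)) < cnt x y q a) ⊆
      (range (J + 1)).biUnion (fun j => (range q).filter (fun a => Nat.Coprime a q ∧ δ / φ <
        |psiAP (q + j * δ) q a - (q + j * δ) / (Nat.totient q : ℝ)|)) := by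
    intro a ha
    rw [mem_filter] at ha
    obtain ⟨ha1, ha2, x, y, ha3, ha4, ha5, ha6⟩ := ha
    rw [mem_biUnion]
    by_contra hcon
    push Not at hcon
    have h2 : ∀ j ≤ J, |psiAP (q + j * δ) q a - (q + j * δ) / (Nat.totient q : ℝ)| ≤ δ / (Nat.totient q : ℝ) := by
      intro j hj
      have h3 := hcon j (mem_range.2 (by omega))
      rw [mem_filter] at h3
      push Not at h3
      have h4 := h3 ha1 ha2
      rw [← hφ] at h4 ⊢
      exact h4
    have h3 := class_good q a hq2 ha2 η L δ B D J hη0 hL hL1 hLη (by omega) hδ hJ1 h2 x y ha3 ha4 ha5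
    rw [← hε5] at h3
    linarith
  have hc1 : (((range q).filter (fun a => Nat.Coprime a q ∧ ∃ x y : ℝ, q * L ^ B ≤ y ∧ y ≤ x ∧
      x ≤ q * L ^ (B + D) ∧ (1 + ε) * (y / (Nat.totient q * L)) < cnt x y q a)).card : ℝ) ≤
      ((J : ℝ) + 1) * (6 * (q * (P * R) * L) / (δ / φ) ^ 2) := by
    have h2 : (((range q).filter (fun a => Nat.Coprime a q ∧ ∃ x y : ℝ, q * L ^ B ≤ y ∧ y ≤ x ∧
      x ≤ q * L ^ (B + D) ∧ (1 + ε) * (y / (Nat.totient q * L)) < cnt x y q a)).card : ℝ) ≤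
      ∑ j ∈ range (J + 1), (((range q).filter (fun a => Nat.Coprime a q ∧ δ / φ <
        |psiAP (q + j * δ) q a - (q + j * δ) / (Nat.totient q : ℝ)|)).card : ℝ) := by
      exact_mod_cast (card_le_card hsub).trans card_biUnion_le
    refine h2.trans ((sum_le_sum hcard).trans (le_of_eq ?_))
    rw [sum_const, card_range, nsmul_eq_mul]
    push_cast
    ring
  refine hc1.trans ?_
  rw [← hφ, ← hS]
  have hKpos : 0 ≤ 6 * (q * (P * R) * L) / (δ / φ) ^ 2 := by positivity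
  have h2 : ((J : ℝ) + 1) ≤ 3 * (R / η) := by linarith
  refine (mul_le_mul_of_nonneg_right h2 hKpos).trans ?_
  have e1 : 3 * (R / η) * (6 * (q * (P * R) * L) / (δ / φ) ^ 2) = (18 * R ^ 2 * L * φ ^ 2) / (η ^ 3 * q * P) := by
    rw [hδ, ← hP]
    field_simp
    ring
  rw [e1, div_le_div_iff₀ (by positivity) (by linarith)]
  -- `18 R ^ 2 L φ ^ 2 S ≤ φ η ^ 3 q P`
  have e2 : 18 * (R ^ 2 * S * L) ≤ η ^ 3 * P := by
    calc 18 * (R ^ 2 * S * L) ≤ (η ^ 3 * L) * (R ^ 2 * S * L) := by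
          apply mul_le_mul_of_nonneg_right hL18
          positivity
      _ = η ^ 3 * (R ^ 2 * S * L ^ 2) := by ring
      _ ≤ η ^ 3 * P := mul_le_mul_of_nonneg_left hPbig (by positivity)
  calc 18 * R ^ 2 * L * φ ^ 2 * S = (φ * φ) * (18 * (R ^ 2 * S * L)) := by ring
    _ ≤ (φ * q) * (η ^ 3 * P) := by
        apply mul_le_mul (mul_le_mul_of_nonneg_left hφq hφ0.le) e2 (by positivity) (by positivity)
    _ = φ * (η ^ 3 * q * P) := by ring

end Pool.Agent.N469.TL.BT
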