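import Pool.Agent.N469.TL.Union
import Pool.Agent.Y885.MU5

set_option autoImplicit false

/-! Correlations of the Möbius and Liouville functions with arbitrary functions, for all the shifts near almost all smooth numbers. -/

namespace Pool.Agent.N469.TL
open Finset
open Pool.Agent.H373R2.T7
open Pool.Agent.Y885 (Fine)
open Pool.Agent.N469.SM (SS mem_SS one_mem_SS SS_mono card_SS_le card_SS_pos)

theorem sm_corr (μ : ℤ) (hμ : μ ≠ 0) (Kp Bc A T U : ℕ) (θ : ℕ → ℝ) (hθ : Fine θ) (δ : ℝ) (hδ : 0 < δ) :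
    ∃ N₀ : ℕ, ∀ N, N₀ ≤ N → ∀ P y, Cond δ Kp N P y → ∀ E : ℕ → Prop, ∀ _ : DecidablePred E,
    (∃ (cc : ℤ) (L : ℕ) (α : Fin L → ℕ) (g : Fin L → ℕ → ℂ), |cc| ≤ Bc * N ∧ (L : ℝ) ≤ Real.log N ^ T ∧ (∀ l, 1 ≤ α l) ∧
      (∀ l n, 1 ≤ n → α l * n ≤ Bc * N → ‖g l n‖ ≤ Real.log N ^ T) ∧
      ∀ v, E v → ∃ r : ℤ, |(r : ℝ)| ≤ Real.log N ^ A ∧ ∃ l, ∃ x : ℕ, α l * x ≤ Bc * N ∧
        (N : ℝ) / Real.log N ^ U < ‖∑ n ∈ Icc 1 x, g l n * exI (fun n => ((θ n : ℝ) : ℂ)) (((α l * n : ℕ) : ℤ) + (cc + μ * (v : ℤ) + r))‖) →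
    ∑ v ∈ SS P N, (if E v then 1 / ((SS P N).card : ℝ) else 0) ≤ 1 / Real.log N ^ U := by
  classical
  obtain ⟨U', hU'⟩ : ∃ U', U' = U + A + 2 := ⟨_, rfl⟩
  obtain ⟨e₁, he₁⟩ : ∃ e₁, e₁ = 2 * (Bc + 1) + μ.natAbs + 3 := ⟨_, rfl⟩
  obtain ⟨c₁, N1, h1⟩ := sm_tlaw δ hδ Kp μ.natAbs 1 (4 * U' + 4 * T + 7) (by omega)
  obtain ⟨K0, h3⟩ := Pool.Agent.Y885.tl_probZ 2 3 c₁ le_rfl (by norm_num) θ hθ T U'
  obtain ⟨N4, h4⟩ := near A U
  obtain ⟨S, hS⟩ : ∃ S : ℕ, S = 2 ^ (e₁ + 1) := ⟨_, rfl⟩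
  obtain ⟨Z, hZ⟩ : ∃ Z : ℕ, Z = 2 ^ (K0 + S) := ⟨_, rfl⟩
  refine ⟨N1 + N4 + Z + 3, fun N hN P y hP E _ hE => ?_⟩
  obtain ⟨cc, L, α, g, hcc, hL, hα, hg, hbad⟩ := hE
  have hk : K0 + S ≤ Nat.log 2 N := (Nat.le_log_iff_pow_le (by norm_num) (by omega)).2 (by rw [← hZ]; omega)
  have hlog := (log_digits N (by omega)).1
  have hLN0 : 0 < Real.log N := Real.log_pos (by exact_mod_cast (by omega : 1 < N))
  have hp0 : (0 : ℝ) ≤ 1 / ((SS P N).card : ℝ) := by positivity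
  have hN0 : (0 : ℝ) < N := by exact_mod_cast (by omega : 0 < N)
  obtain ⟨K, hK⟩ : ∃ K, K = Nat.log 2 N + 1 + e₁ := ⟨_, rfl⟩
  have hlogK : Real.log N ≤ K := by
    refine hlog.trans ?_
    rw [hK]
    exact_mod_cast Nat.le_add_right _ _
  have hK1 : (1 : ℝ) ≤ K := by rw [hK]; exact_mod_cast (by omega : 1 ≤ Nat.log 2 N + 1 + e₁)
  have hK0 : (0 : ℝ) < K := by linarith
  -- the threshold
  have hthr : ((2 ^ K : ℕ) : ℝ) / (K : ℝ) ^ U' ≤ N / Real.log N ^ U := by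
    have a1 : 2 ^ K ≤ S * N := by
      rw [hK, hS, show Nat.log 2 N + 1 + e₁ = (e₁ + 1) + Nat.log 2 N by ring, pow_add]
      exact Nat.mul_le_mul_left _ (Nat.pow_log_le_self 2 (by omega))
    have a2 : ((2 ^ K : ℕ) : ℝ) ≤ S * N := by exact_mod_cast a1
    have a3 : (S : ℝ) ≤ K := by rw [hK]; exact_mod_cast (by omega : S ≤ Nat.log 2 N + 1 + e₁)
    rw [div_le_div_iff₀ (by positivity) (by positivity)]
    calc ((2 ^ K : ℕ) : ℝ) * Real.log N ^ U ≤ (S * N) * (K : ℝ) ^ U := by gcongr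
      _ ≤ (K * N) * (K : ℝ) ^ U := by gcongr
      _ = N * (K : ℝ) ^ (U + 1) := by ring
      _ ≤ N * (K : ℝ) ^ U' := by
          apply mul_le_mul_of_nonneg_left _ hN0.le
          exact pow_le_pow_right₀ hK1 (by omega)
  have hNK : ((e₁ : ℕ) : ℤ) * N < (2 : ℤ) ^ K := by
    have b1 : N < 2 ^ (Nat.log 2 N + 1) := Nat.lt_pow_succ_log_self (by norm_num) N
    have b2 : e₁ < 2 ^ e₁ := Nat.lt_two_pow_self
    have b3 : e₁ * N < 2 ^ e₁ * 2 ^ (Nat.log 2 N + 1) := Nat.mul_lt_mul'' b2 b1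
    rw [hK, add_comm, pow_add]
    exact_mod_cast b3
  refine h4 N (by omega) (SS P N) _ hp0 E _ (fun r v => ∃ l, ∃ x : ℕ, α l * x ≤ Bc * N ∧
      ((2 ^ K : ℕ) : ℝ) / (K : ℝ) ^ U' < ‖∑ n ∈ Icc 1 x, g l n * exI (fun n => ((θ n : ℝ) : ℂ)) (((α l * n : ℕ) : ℤ) + (cc + μ * (v : ℤ) + r))‖)
      (fun r v => Classical.propDecidable _) ?_ ?_
  · intro r _ hr
    have hform : (∀ v : ℕ, (cc + μ * (v : ℤ) + r) = (cc + r) + ((1 : ℕ) : ℤ) * ((μ.natAbs : ℤ) * (v : ℤ))) ∨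
        (∀ v : ℕ, (cc + μ * (v : ℤ) + r) = (cc + r) - ((1 : ℕ) : ℤ) * ((μ.natAbs : ℤ) * (v : ℤ))) := by
      rcases form 1 μ (cc + r) with h | h
      · left
        intro v
        rw [← h v]
        push_cast
        ring
      · right
        intro v
        rw [← h v]
        push_cast
        ring
    have he : 2 ^ e₁ ≤ (Nat.log 2 N + 1) ^ 1 := by
      rw [pow_one]
      have : 2 ^ e₁ ≤ S := by rw [hS]; exact Nat.pow_le_pow_right (by norm_num) (by omega)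
      omega
    have l1 := h1 N (by omega) P y hP.primes hP.one hP.top hP.card e₁ he 1 le_rfl (Nat.one_le_pow _ _ (by omega)) (cc + r)
      (fun v => cc + μ * (v : ℤ) + r) hform
    rw [← hK] at l1
    have hval : ∀ v ∈ SS P N, |cc + μ * (v : ℤ) + r| + Bc * N ≤ (e₁ : ℤ) * N - N := by
      intro v hv
      have a1 := abs_val μ Bc N v cc hcc (mem_SS.1 hv).1.2
      have a3 : |(cc + μ * (v : ℤ)) + r| ≤ |cc + μ * (v : ℤ)| + |r| := abs_add_le _ _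
      have : ((e₁ : ℕ) : ℤ) = 2 * (Bc + 1) + μ.natAbs + 3 := by rw [he₁]; push_cast; ring
      rw [this]
      push_cast at a1
      have : (0 : ℤ) ≤ Bc * (N : ℤ) := by positivity
      nlinarith
    have key := h3 K (by omega) ℕ _ _ _ l1 (Bc * N) (by
      have : ((Bc * N : ℕ) : ℤ) ≤ (2 : ℤ) ^ K := by
        have b1 : (Bc : ℤ) * N ≤ (e₁ : ℤ) * N := by
          apply mul_le_mul_of_nonneg_right _ (by positivity)
          exact_mod_cast (by omega : Bc ≤ e₁)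
        push_cast
        linarith
      exact_mod_cast this) (by
      intro v hv
      have a1 := hval v hv
      have a2 := abs_le.1 (le_refl |cc + μ * (v : ℤ) + r|)
      have a3 : (0 : ℤ) ≤ (Bc : ℤ) * N := by positivity
      have a4 : (0 : ℤ) < N := by exact_mod_cast (by omega : 0 < N)
      push_cast
      constructor
      · linarith [a2.1]
      · linarith [a2.2]) L (hL.trans (pow_le_pow_left₀ hLN0.le hlogK _)) α g hα (fun l n hn hn2 => (hg l n hn hn2).trans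
        (pow_le_pow_left₀ hLN0.le hlogK _))
      (fun v => ∃ l, ∃ x : ℕ, α l * x ≤ Bc * N ∧
      ((2 ^ K : ℕ) : ℝ) / (K : ℝ) ^ U' < ‖∑ n ∈ Icc 1 x, g l n * exI (fun n => ((θ n : ℝ) : ℂ)) (((α l * n : ℕ) : ℤ) + (cc + μ * (v : ℤ) + r))‖)
      (Classical.decPred _) (fun v _ hv => hv)
    refine (le_trans (le_of_eq ?_) key).trans ?_
    · apply sum_congr rfl
      intro v _
      congr
    · apply one_div_le_one_div_of_le (by positivity)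
      calc Real.log N ^ (U + A + 1) ≤ (K : ℝ) ^ (U + A + 1) := pow_le_pow_left₀ hLN0.le hlogK _
        _ ≤ (K : ℝ) ^ U' := pow_le_pow_right₀ hK1 (by omega)
  · intro v _ hEv
    obtain ⟨r, hr, l, x, hx, hlt⟩ := hbad v hEv
    exact ⟨r, hr, l, x, hx, hthr.trans_lt hlt⟩

end Pool.Agent.N469.TL
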