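import Pool.Agent.N469.TL.LawX
import Pool.Agent.N469.SQ.Smooth

set_option autoImplicit false

/-! From probabilities to the number of exceptions; smooth numbers. -/

namespace Pool.Agent.N469.TL
open Finset
open Pool.Agent.H373R2.T7
open Pool.Agent.N469.SM (SS mem_SS one_mem_SS SS_mono card_SS_le card_SS_pos)

/-- the conditions on the set of primes -/
structure Cond (δ : ℝ) (Kp N : ℕ) (P : Finset ℕ) (y : ℕ) : Prop where
  primes : ∀ p ∈ P, p.Prime ∧ p ≤ y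
  one : 1 ≤ y
  top : (y : ℝ) ≤ Real.log N ^ Kp
  card : (y : ℝ) ^ (1 / 2 + δ) * Real.log N ≤ P.card

lemma smooth_eq (y x : ℕ) : ((Icc 1 x).filter fun v : ℕ => ∀ p ∈ v.primeFactors, p ≤ y) = SS (Pool.Agent.N469.SQ.PR y) x := by
  ext v
  unfold SS
  rw [mem_filter, mem_filter]
  constructor
  · rintro ⟨h5, h6⟩
    exact ⟨h5, fun p hp => Pool.Agent.N469.SQ.mem_PR.2 ⟨Nat.prime_of_mem_primeFactors hp, h6 p hp⟩⟩
  · rintro ⟨h5, h6⟩
    exact ⟨h5, fun p hp => (Pool.Agent.N469.SQ.mem_PR.1 (h6 hp)).2⟩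

/-- the number of exceptions from the probability of an exception -/
lemma count (P : Finset ℕ) (N : ℕ) (hN : 1 ≤ N) (R : ℝ) (E : ℕ → Prop) [DecidablePred E]
    (h : ∑ v ∈ SS P N, (if E v then 1 / ((SS P N).card : ℝ) else 0) ≤ 1 / R) : (((SS P N).filter E).card : ℝ) ≤ ((SS P N).card : ℝ) / R := by
  have hS : (0 : ℝ) < ((SS P N).card : ℝ) := by exact_mod_cast card_SS_pos P hN
  rw [← sum_filter, sum_const, nsmul_eq_mul, mul_one_div, div_le_iff₀ hS] at h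
  rw [div_eq_mul_one_div, mul_comm]
  exact h

theorem both (δ : ℝ) (hδ : 0 < δ) (Kp U : ℕ) (H : ℕ → (ℕ → Prop) → Prop)
    (h : ∀ δ : ℝ, 0 < δ → ∃ N₀ : ℕ, ∀ N, N₀ ≤ N → ∀ P y, Cond δ Kp N P y → ∀ E : ℕ → Prop, ∀ _ : DecidablePred E, H N E →
      ∑ v ∈ SS P N, (if E v then 1 / ((SS P N).card : ℝ) else 0) ≤ 1 / Real.log N ^ U) :
    ∃ N₀ : ℕ, ∀ N, N₀ ≤ N → ∀ y : ℕ, 1 ≤ y → (y : ℝ) ≤ Real.log N ^ Kp → ∀ E : ℕ → Prop, ∀ _ : DecidablePred E, H N E →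
      (∀ P : Finset ℕ, (∀ p ∈ P, p.Prime ∧ p ≤ y) → (y : ℝ) ^ (1 / 2 + δ) * Real.log N ≤ P.card →
        ((((Icc 1 N).filter fun v : ℕ => v.primeFactors ⊆ P).filter E).card : ℝ) ≤
          (((Icc 1 N).filter fun v : ℕ => v.primeFactors ⊆ P).card : ℝ) / Real.log N ^ U) ∧
      (Real.log N ^ (2 + δ) ≤ y →
        ((((Icc 1 N).filter fun v : ℕ => ∀ p ∈ v.primeFactors, p ≤ y).filter E).card : ℝ) ≤
          (((Icc 1 N).filter fun v : ℕ => ∀ p ∈ v.primeFactors, p ≤ y).card : ℝ) / Real.log N ^ U) := by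
  obtain ⟨δ', N1, hδ', h1⟩ := Pool.Agent.N469.SQ.PR_cond δ hδ
  obtain ⟨N2, h2⟩ := h δ hδ
  obtain ⟨N3, h3⟩ := h δ' hδ'
  refine ⟨N1 + N2 + N3 + 1, fun N hN y hy hy' E _ hE => ⟨fun P hP hcard => ?_, fun hyl => ?_⟩⟩
  · exact count P N (by omega) _ E (h2 N (by omega) P y ⟨hP, hy, hy', hcard⟩ E _ hE)
  · rw [smooth_eq]
    exact count _ N (by omega) _ E (h3 N (by omega) (Pool.Agent.N469.SQ.PR y) y ⟨fun p hp => Pool.Agent.N469.SQ.mem_PR.1 hp, hy, hy',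
      (h1 N (by omega) y hyl).2⟩ E _ hE)

/-- the values are not much larger than `N` -/
lemma abs_val (μ : ℤ) (B N v : ℕ) (cc : ℤ) (hcc : |cc| ≤ B * N) (hv : v ≤ N) :
    |cc + μ * (v : ℤ)| ≤ ((B + μ.natAbs : ℕ) : ℤ) * N := by
  have a1 : |cc + μ * (v : ℤ)| ≤ |cc| + |μ * (v : ℤ)| := abs_add_le _ _
  have a2 : |μ * (v : ℤ)| ≤ (μ.natAbs : ℤ) * N := by
    rw [abs_mul, Int.abs_eq_natAbs μ, abs_of_nonneg (by positivity : (0 : ℤ) ≤ (v : ℤ))]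
    exact mul_le_mul_of_nonneg_left (by exact_mod_cast hv) (by positivity)
  have a3 : ((B + μ.natAbs : ℕ) : ℤ) * N = B * N + (μ.natAbs : ℤ) * N := by push_cast; ring
  linarith

end Pool.Agent.N469.TL
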