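import Pool.Agent.Y958.RM.Cor
import Pool.Agent.Y958.RM.Rnd

set_option autoImplicit false

/-! From the powers of `log N` to the powers of the number of the digits (from the starting file H491R3/AM4, whose imports are
not needed here). -/

namespace Pool.Agent.N469.TL.AM
open Finset
open Pool.Agent.Y958.RM (BadQ)
open Pool.Agent.TH894.PV (G)

lemma scale (B e₀ A : ℕ) (hB : 2 ≤ B) : ∃ N₁ : ℕ, ∀ N : ℕ, N₁ ≤ N →
    (B : ℝ) ^ (1 + e₀) * Real.log N ^ A ≤ ((Nat.log B N + 1 + e₀ : ℕ) : ℝ) ^ (A + 1) := by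
  have hB1 : (1 : ℝ) < B := by exact_mod_cast (by omega : 1 < B)
  have hlogB : 0 < Real.log B := Real.log_pos hB1
  obtain ⟨R, hR⟩ := exists_nat_ge ((B : ℝ) ^ (1 + e₀) * Real.log B ^ A)
  refine ⟨B ^ (R + 1), fun N hN => ?_⟩
  obtain ⟨k, hk⟩ : ∃ k, k = Nat.log B N + 1 + e₀ := ⟨_, rfl⟩
  rw [← hk]
  have hBp : 0 < B ^ (R + 1) := by positivity
  have hR1 : R + 1 ≤ Nat.log B N := (Nat.le_log_iff_pow_le (by omega) (by omega)).2 hN
  have hN2 : N < B ^ (Nat.log B N + 1) := Nat.lt_pow_succ_log_self (by omega) N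
  have hlogN : Real.log N ≤ k * Real.log B := by
    have e1 : (N : ℝ) ≤ (B : ℝ) ^ k := by
      have : N ≤ B ^ k := hN2.le.trans (Nat.pow_le_pow_right (by omega) (by omega))
      exact_mod_cast this
    have hN0 : (0 : ℝ) < N := by exact_mod_cast (by omega : 0 < N)
    have e2 := Real.log_le_log hN0 e1
    rwa [Real.log_pow] at e2
  have hlogN0 : 0 ≤ Real.log N := Real.log_natCast_nonneg N
  have hkR : (R : ℝ) ≤ k := by exact_mod_cast (by omega : R ≤ k)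
  calc (B : ℝ) ^ (1 + e₀) * Real.log N ^ A ≤ (B : ℝ) ^ (1 + e₀) * (k * Real.log B) ^ A :=
        mul_le_mul_of_nonneg_left (pow_le_pow_left₀ hlogN0 hlogN A) (by positivity)
    _ = (B : ℝ) ^ (1 + e₀) * Real.log B ^ A * (k : ℝ) ^ A := by rw [mul_pow]; ring
    _ ≤ k * (k : ℝ) ^ A := mul_le_mul_of_nonneg_right (hR.trans hkR) (by positivity)
    _ = _ := by rw [pow_succ]; ring

/-- the size of the modulus in terms of the number of the digits -/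
lemma pow_le_of_log (B e₀ A : ℕ) (hB : 2 ≤ B) : ∃ N₁ : ℕ, ∀ N : ℕ, N₁ ≤ N → ∀ Q : ℤ, (N : ℝ) ≤ (Q : ℝ) * Real.log N ^ A →
    0 < Q ∧ (B : ℤ) ^ (Nat.log B N + 1 + e₀) ≤ Q * ((Nat.log B N + 1 + e₀ : ℕ) : ℤ) ^ (A + 1) ∧
      Real.log N ^ A ≤ ((Nat.log B N + 1 + e₀ : ℕ) : ℝ) ^ (A + 1) := by
  obtain ⟨N₁, h⟩ := scale B e₀ A hB
  refine ⟨N₁ + 1, fun N hN Q hQ => ?_⟩
  have h1 := h N (by omega)
  have hN0 : N ≠ 0 := by omega
  have hN0r : (0 : ℝ) < N := by exact_mod_cast (by omega : 0 < N)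
  have hlogN0 : 0 ≤ Real.log N := Real.log_natCast_nonneg N
  have hlp : 0 ≤ Real.log N ^ A := pow_nonneg hlogN0 A
  have hB1 : (1 : ℝ) ≤ B := by exact_mod_cast (by omega : 1 ≤ B)
  have hQ0 : 0 < Q := by
    by_contra hcon
    push Not at hcon
    have hcr : (Q : ℝ) ≤ 0 := by exact_mod_cast hcon
    have := mul_nonpos_of_nonpos_of_nonneg hcr hlp
    linarith
  have hQr : (0 : ℝ) < Q := by exact_mod_cast hQ0
  refine ⟨hQ0, ?_, ?_⟩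
  · have h2 : B ^ Nat.log B N ≤ N := Nat.pow_log_le_self B hN0
    have h2r : (B : ℝ) ^ Nat.log B N ≤ N := by exact_mod_cast h2
    have h3 : (B : ℝ) ^ (Nat.log B N + 1 + e₀) ≤ (Q : ℝ) * ((Nat.log B N + 1 + e₀ : ℕ) : ℝ) ^ (A + 1) := by
      calc (B : ℝ) ^ (Nat.log B N + 1 + e₀) = (B : ℝ) ^ Nat.log B N * (B : ℝ) ^ (1 + e₀) := by rw [← pow_add]; congr 1; omega
        _ ≤ (Q * Real.log N ^ A) * (B : ℝ) ^ (1 + e₀) := mul_le_mul_of_nonneg_right (h2r.trans hQ) (by positivity)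
        _ = Q * ((B : ℝ) ^ (1 + e₀) * Real.log N ^ A) := by ring
        _ ≤ _ := mul_le_mul_of_nonneg_left h1 hQr.le
    exact_mod_cast h3
  · refine le_trans ?_ h1
    exact le_mul_of_one_le_left hlp (one_le_pow₀ hB1)

/-- the bad moduli in terms of the number of the digits -/
lemma badq_of_log (B e₀ A : ℕ) (hB : 2 ≤ B) (ε : ℝ) : ∃ N₁ : ℕ, ∀ N : ℕ, N₁ ≤ N → ∀ Q : ℤ, (N : ℝ) ≤ (Q : ℝ) * Real.log N ^ A →
    (∃ x : ℝ, ((Q.toNat : ℕ) : ℝ) ≤ x ∧ x ≤ ((Q.toNat : ℕ) : ℝ) * Real.log N ^ A ∧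
      ¬ |G x Q.toNat - x * Real.log ((Q.toNat : ℕ) : ℝ)| ≤ ε * (x * Real.log ((Q.toNat : ℕ) : ℝ))) →
    BadQ ε (A + 1) (Nat.log B N + 1 + e₀) B Q := by
  obtain ⟨N₁, h⟩ := pow_le_of_log B e₀ A hB
  refine ⟨N₁, fun N hN Q hQ hx => ?_⟩
  obtain ⟨hQ0, h1, h2⟩ := h N hN Q hQ
  obtain ⟨x, hx1, hx2, hx3⟩ := hx
  have hQn : ((Q.toNat : ℕ) : ℝ) = (Q : ℝ) := by
    have : ((Q.toNat : ℕ) : ℤ) = Q := Int.toNat_of_nonneg hQ0.le
    exact_mod_cast this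
  have hQr : (0 : ℝ) < Q := by exact_mod_cast hQ0
  rw [hQn] at hx1 hx2 hx3
  exact ⟨h1, x, hx1, hx2.trans (mul_le_mul_of_nonneg_left h2 hQr.le), hx3⟩

end Pool.Agent.N469.TL.AM
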