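import Pool.Agent.N469.TL.Fin

set_option autoImplicit false

/-! All the values in a neighbourhood. -/

namespace Pool.Agent.N469.TL
open Finset
open Pool.Agent.H373R2.T7
open Pool.Agent.N469.SM (SS mem_SS one_mem_SS SS_mono card_SS_le card_SS_pos)

/-- the union bound over the shifts `|r| ≤ log ^ A N` -/
theorem near (A U : ℕ) : ∃ N₀ : ℕ, ∀ N : ℕ, N₀ ≤ N → ∀ (S : Finset ℕ) (p : ℝ), 0 ≤ p →
    ∀ (E : ℕ → Prop) (_ : DecidablePred E) (F : ℤ → ℕ → Prop) (_ : ∀ r, DecidablePred (F r)),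
    (∀ r : ℤ, |(r : ℝ)| ≤ Real.log N ^ A → |r| ≤ N → ∑ v ∈ S, (if F r v then p else 0) ≤ 1 / Real.log N ^ (U + A + 1)) →
    (∀ v ∈ S, E v → ∃ r : ℤ, |(r : ℝ)| ≤ Real.log N ^ A ∧ F r v) →
    ∑ v ∈ S, (if E v then p else 0) ≤ 1 / Real.log N ^ U := by
  obtain ⟨N4, h4⟩ := ev_L' ((16 : ℕ) : ℝ)
  obtain ⟨N5, h5⟩ := ev_log' A 1
  refine ⟨N4 + N5 + 3, fun N hN S p hp0 E _ F _ hF hE => ?_⟩
  have hL4 := h4 N (by omega)
  have hL1 : (16 : ℝ) ≤ Real.log N := by exact_mod_cast hL4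
  have hLN0 : 0 < Real.log N := by linarith
  obtain ⟨M, hM⟩ : ∃ M, M = ⌊Real.log N ^ A⌋₊ := ⟨_, rfl⟩
  have hMN : M ≤ N := by
    rw [hM]
    apply Nat.floor_le_of_le
    have a1 := h5 N (by omega)
    rw [one_mul] at a1
    refine a1.trans ?_
    rw [Real.sqrt_le_left (by positivity)]
    have : (1 : ℝ) ≤ N := by exact_mod_cast (by omega : 1 ≤ N)
    nlinarith
  have hMr : (M : ℝ) ≤ Real.log N ^ A := by rw [hM]; exact Nat.floor_le (by positivity)
  have g1 : ∀ r ∈ Icc (-(M : ℤ)) M, ∑ v ∈ S, (if F r v then p else 0) ≤ 1 / Real.log N ^ (U + A + 1) := by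
    intro r hr
    rw [mem_Icc] at hr
    have a1 : |r| ≤ (M : ℤ) := abs_le.2 hr
    refine hF r ?_ (a1.trans (by exact_mod_cast hMN))
    refine le_trans ?_ hMr
    rw [← Int.cast_abs]
    exact_mod_cast a1
  have g3 : ∀ v ∈ S, (if E v then p else 0) ≤ ∑ r ∈ Icc (-(M : ℤ)) M, (if F r v then p else 0) := by
    intro v hv
    have hnn : ∀ r, 0 ≤ (if F r v then p else 0) := by
      intro r
      split_ifs <;> first | exact hp0 | exact le_rfl
    split_ifs with hEv
    · obtain ⟨r, hr, hF1⟩ := hE v hv hEv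
      have hrM : r ∈ Icc (-(M : ℤ)) M := by
        have a1 : r.natAbs ≤ M := by
          rw [hM]
          apply Nat.le_floor
          rw [Nat.cast_natAbs, Int.cast_abs]
          exact hr
        rw [mem_Icc]
        omega
      refine le_trans (le_of_eq ?_) (single_le_sum (f := fun r => (if F r v then p else 0)) (fun r _ => hnn r) hrM)
      rw [if_pos hF1]
    · exact sum_nonneg fun r _ => hnn r
  refine (sum_le_sum g3).trans ?_
  rw [sum_comm]
  refine (sum_le_sum g1).trans ?_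
  rw [sum_const, nsmul_eq_mul, Int.card_Icc]
  have hMc : (((M : ℤ) + 1 - -(M : ℤ)).toNat : ℝ) ≤ 3 * Real.log N ^ A := by
    have e1 : ((M : ℤ) + 1 - -(M : ℤ)).toNat = 2 * M + 1 := by omega
    rw [e1]
    push_cast
    have : (1 : ℝ) ≤ Real.log N ^ A := one_le_pow₀ (by linarith)
    linarith
  calc (((M : ℤ) + 1 - -(M : ℤ)).toNat : ℝ) * (1 / Real.log N ^ (U + A + 1)) ≤ (3 * Real.log N ^ A) * (1 / Real.log N ^ (U + A + 1)) := by
        gcongr
    _ = 3 * Real.log N ^ A / Real.log N ^ (U + A + 1) := by ring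
    _ ≤ 1 / Real.log N ^ U := by
        rw [div_le_div_iff₀ (by positivity) (by positivity), one_mul]
        have e2 : Real.log N ^ (U + A + 1) = Real.log N * (Real.log N ^ A * Real.log N ^ U) := by ring
        rw [e2]
        have e4 : 0 < Real.log N ^ A * Real.log N ^ U := by positivity
        nlinarith

end Pool.Agent.N469.TL
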