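import Pool.Agent.N469.TL.Hooley
import Pool.Agent.N469.TL.Union
import Pool.Agent.N469.TL.Scale

set_option autoImplicit false

/-! Hooley's variance conjecture for almost all smooth moduli. -/

namespace Pool.Agent.N469.TL
open Finset
open Pool.Agent.H373R2.T7
open Pool.Agent.TH894.PV (G)
open Pool.Agent.Y958.RM (BadQ)
open Pool.Agent.N469.SM (SS mem_SS one_mem_SS SS_mono card_SS_le card_SS_pos)

theorem sm_hooley (μ : ℤ) (hμ : μ ≠ 0) (Kp Bc A U : ℕ) (ε : ℝ) (hε : 0 < ε) (hε1 : ε ≤ 1) (δ : ℝ) (hδ : 0 < δ) :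
    ∃ N₀ : ℕ, ∀ N, N₀ ≤ N → ∀ P y, Cond δ Kp N P y → ∀ E : ℕ → Prop, ∀ _ : DecidablePred E,
    (∃ cc : ℤ, |cc| ≤ Bc * N ∧ ∀ v, E v → ∃ r : ℤ, |(r : ℝ)| ≤ Real.log N ^ A ∧ 1 ≤ cc + μ * (v : ℤ) + r ∧
      ∃ x : ℝ, (((cc + μ * (v : ℤ) + r).toNat : ℕ) : ℝ) ≤ x ∧ x ≤ (((cc + μ * (v : ℤ) + r).toNat : ℕ) : ℝ) * Real.log N ^ A ∧
        ¬ |G x (cc + μ * (v : ℤ) + r).toNat - x * Real.log (((cc + μ * (v : ℤ) + r).toNat : ℕ) : ℝ)| ≤
          ε * (x * Real.log (((cc + μ * (v : ℤ) + r).toNat : ℕ) : ℝ))) →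
    ∑ v ∈ SS P N, (if E v then 1 / ((SS P N).card : ℝ) else 0) ≤ 1 / Real.log N ^ U := by
  classical
  obtain ⟨N1, h1⟩ := near A U
  obtain ⟨W, N2, h2⟩ := sm_small δ hδ Kp μ hμ (U + A + 2)
  obtain ⟨e₀, N3, h3⟩ := sm_badq δ hδ Kp μ hμ (Bc + 1) (A + W + 1) (U + A + 2) ε hε hε1
  obtain ⟨N4, h4⟩ := Pool.Agent.N469.TL.AM.badq_of_log 2 e₀ (A + W) le_rfl ε
  obtain ⟨N5, h5⟩ := ev_L' ((16 : ℕ) : ℝ)
  refine ⟨N1 + N2 + N3 + N4 + N5 + 3, fun N hN P y hP E _ hE => ?_⟩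
  obtain ⟨cc, hcc, hbad⟩ := hE
  have hL4 := h5 N (by omega)
  have hL1 : (16 : ℝ) ≤ Real.log N := by exact_mod_cast hL4
  have hLN0 : 0 < Real.log N := by linarith
  have hp0 : (0 : ℝ) ≤ 1 / ((SS P N).card : ℝ) := by positivity
  refine h1 N (by omega) (SS P N) _ hp0 E _ (fun r v => (1 ≤ (cc + r) + μ * (v : ℤ) ∧ (((cc + r) + μ * (v : ℤ) : ℤ) : ℝ) * Real.log N ^ W < N) ∨
    BadQ ε (A + W + 1) (Nat.log 2 N + 1 + e₀) 2 ((cc + r) + μ * (v : ℤ))) (fun r v => Classical.propDecidable _) ?_ ?_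
  · intro r _ hr
    have a1 := h2 N (by omega) P y hP.primes hP.one hP.top hP.card (cc + r)
    have a2 := h3 N (by omega) P y hP.primes hP.one hP.top hP.card (cc + r) (by
      have : |cc + r| ≤ |cc| + |r| := abs_add_le _ _
      push_cast
      linarith)
    have a3 : ∑ v ∈ SS P N, (if (1 ≤ (cc + r) + μ * (v : ℤ) ∧ (((cc + r) + μ * (v : ℤ) : ℤ) : ℝ) * Real.log N ^ W < N) ∨
        BadQ ε (A + W + 1) (Nat.log 2 N + 1 + e₀) 2 ((cc + r) + μ * (v : ℤ)) then 1 / ((SS P N).card : ℝ) else 0) ≤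
        ∑ v ∈ SS P N, (if 1 ≤ (cc + r) + μ * (v : ℤ) ∧ (((cc + r) + μ * (v : ℤ) : ℤ) : ℝ) * Real.log N ^ W < N then 1 / ((SS P N).card : ℝ) else 0) +
        ∑ v ∈ SS P N, (if BadQ ε (A + W + 1) (Nat.log 2 N + 1 + e₀) 2 ((cc + r) + μ * (v : ℤ)) then 1 / ((SS P N).card : ℝ) else 0) := by
      rw [← sum_add_distrib]
      apply sum_le_sum
      intro v _
      by_cases c1 : 1 ≤ (cc + r) + μ * (v : ℤ) ∧ (((cc + r) + μ * (v : ℤ) : ℤ) : ℝ) * Real.log N ^ W < N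
      · rw [if_pos (Or.inl c1), if_pos c1]
        have : (0 : ℝ) ≤ (if BadQ ε (A + W + 1) (Nat.log 2 N + 1 + e₀) 2 ((cc + r) + μ * (v : ℤ)) then 1 / ((SS P N).card : ℝ) else 0) := by
          split_ifs <;> first | exact hp0 | exact le_rfl
        linarith
      · by_cases c2 : BadQ ε (A + W + 1) (Nat.log 2 N + 1 + e₀) 2 ((cc + r) + μ * (v : ℤ))
        · rw [if_pos (Or.inr c2), if_neg c1, if_pos c2, zero_add]
        · rw [if_neg (by tauto), if_neg c1, if_neg c2, zero_add]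
    refine (le_trans (le_of_eq ?_) (a3.trans (add_le_add a1 a2))).trans ?_
    · apply sum_congr rfl
      intro v _
      congr
    · rw [← two_mul, mul_one_div, div_le_div_iff₀ (by positivity) (by positivity), one_mul,
        show Real.log N ^ (U + A + 2) = Real.log N * Real.log N ^ (U + A + 1) by ring]
      have : 0 < Real.log N ^ (U + A + 1) := by positivity
      nlinarith
  · intro v _ hEv
    obtain ⟨r, hr, hpos, x, hx1, hx2, hx3⟩ := hbad v hEv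
    refine ⟨r, hr, ?_⟩
    rw [show cc + r + μ * (v : ℤ) = cc + μ * (v : ℤ) + r by ring]
    by_cases c1 : (((cc + μ * (v : ℤ) + r : ℤ) : ℝ)) * Real.log N ^ W < N
    · exact Or.inl ⟨hpos, c1⟩
    · right
      push Not at c1
      have hQ0 : (0 : ℝ) ≤ ((cc + μ * (v : ℤ) + r : ℤ) : ℝ) := by exact_mod_cast (by omega : (0 : ℤ) ≤ cc + μ * (v : ℤ) + r)
      refine h4 N (by omega) _ ?_ ⟨x, hx1, ?_, hx3⟩
      · refine c1.trans ?_
        apply mul_le_mul_of_nonneg_left _ hQ0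
        exact pow_le_pow_right₀ (by linarith) (by omega)
      · refine hx2.trans ?_
        apply mul_le_mul_of_nonneg_left _ (Nat.cast_nonneg _)
        exact pow_le_pow_right₀ (by linarith) (by omega)

end Pool.Agent.N469.TL
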