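import Pool.Agent.Y885.GV
import Pool.Agent.N469.SQ.One

set_option autoImplicit false

/-! All the multiples of a random integer composed of primes from `P` have a thin large spectrum. -/

namespace Pool.Agent.N469.TL
open Finset
open Pool.Agent.H807R2.Dav
open Pool.Agent.H373R2.T7
open Pool.Agent.Y885 (Thin TLaw Spec)
open Pool.Agent.N469.SQ (Hyp exp_alt sm_facts maj mem_maj maj_card low)
open Pool.Agent.N469.SM (SS mem_SS one_mem_SS SS_mono card_SS_le card_SS_pos)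

/-- a small set of frequencies is thin -/
lemma thin_card (c K : ℕ) (S : Finset ℕ) (hlt : ∀ t ∈ S, t < 2 ^ (K + 1)) (hc : S.card ≤ K ^ c) :
    Thin 2 3 (K ^ c) K (2 * K / 5) S := by
  refine ⟨hlt, fun i hi => ?_, fun j x hj => ?_, ?_⟩
  · exact Nat.mul_le_mul (card_image_le.trans hc) (Nat.pow_le_pow_right (by norm_num) (Nat.div_le_self _ _))
  · exact Nat.mul_le_mul ((card_filter_le _ _).trans hc) (Nat.pow_le_pow_right (by norm_num) (Nat.div_le_self _ _))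
  · exact Nat.mul_le_mul hc (Nat.pow_le_pow_right (by norm_num) (by omega))

/-- `log N` and the number of digits -/
lemma log_digits (N : ℕ) (hN : 2 ≤ N) : Real.log N ≤ (Nat.log 2 N + 1 : ℕ) ∧ ((Nat.log 2 N + 1 : ℕ) : ℝ) ≤ 3 * Real.log N := by
  have h1 : N < 2 ^ (Nat.log 2 N + 1) := Nat.lt_pow_succ_log_self (by norm_num) N
  have h2 : 2 ^ Nat.log 2 N ≤ N := Nat.pow_log_le_self 2 (by omega)
  have hN0 : (0 : ℝ) < N := by exact_mod_cast (by omega : 0 < N)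
  have h3 : Real.log N ≤ Real.log ((2 : ℝ) ^ (Nat.log 2 N + 1)) := Real.log_le_log hN0 (by exact_mod_cast h1.le)
  have h4 : Real.log ((2 : ℝ) ^ Nat.log 2 N) ≤ Real.log N := Real.log_le_log (by positivity) (by exact_mod_cast h2)
  rw [Real.log_pow] at h3 h4
  have e1 := Real.log_two_gt_d9
  have e2 := Real.log_two_lt_d9
  have h5 : (1 : ℝ) ≤ (Nat.log 2 N : ℝ) := by exact_mod_cast Nat.log_pos (by norm_num) hN
  push_cast at h3 ⊢
  constructor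
  · nlinarith
  · nlinarith

lemma pow_two_ev' (W : ℕ) : ∃ k₀ : ℕ, ∀ k : ℕ, k₀ ≤ k → k ^ W ≤ 2 ^ k := by
  have h := tendsto_pow_const_div_const_pow_of_one_lt W (show (1 : ℝ) < 2 by norm_num)
  have h2 := h.eventually (gt_mem_nhds (show (0 : ℝ) < 1 by norm_num))
  obtain ⟨k₀, hk⟩ := Filter.eventually_atTop.1 h2
  refine ⟨k₀, fun k hk' => ?_⟩
  have h3 := hk k hk'
  rw [div_lt_one (by positivity)] at h3
  exact_mod_cast h3.le

/-- all the multiples of a random integer composed of primes from `P` have a thin large spectrum -/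
theorem sm_tlaw (δ : ℝ) (hδ : 0 < δ) (Kp κ W V : ℕ) (hκ : 1 ≤ κ) : ∃ c N₀ : ℕ, ∀ N, N₀ ≤ N → ∀ (P : Finset ℕ) (y : ℕ),
    (∀ p ∈ P, p.Prime ∧ p ≤ y) → 1 ≤ y → (y : ℝ) ≤ Real.log N ^ Kp → (y : ℝ) ^ (1 / 2 + δ) * Real.log N ≤ P.card →
    ∀ e : ℕ, 2 ^ e ≤ (Nat.log 2 N + 1) ^ W → ∀ h : ℕ, 1 ≤ h → h ≤ (Nat.log 2 N + 1) ^ W → ∀ cc : ℤ, ∀ Y : ℕ → ℤ,
    ((∀ v, Y v = cc + h * (κ * (v : ℤ))) ∨ (∀ v, Y v = cc - h * (κ * (v : ℤ)))) →
      TLaw 2 3 c V (Nat.log 2 N + 1 + e) (SS P N) (fun _ => 1 / ((SS P N).card : ℝ)) Y := by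
  obtain ⟨m, hm⟩ := sm_facts δ hδ 1 Kp 1 le_rfl
  obtain ⟨V', hV'⟩ : ∃ V', V' = 2 * V := ⟨_, rfl⟩
  obtain ⟨c1, hc1⟩ : ∃ c1, c1 = m * (14 + 2 * V') := ⟨_, rfl⟩
  obtain ⟨N1, h1⟩ := hm (c1 + 8 + 2 * V')
  obtain ⟨N2, h2⟩ := ev_L' ((8 * (κ + 3) * 9 + 6 : ℕ) : ℝ)
  obtain ⟨N3, hN3⟩ := pow_two_ev' W
  obtain ⟨N4, h3⟩ := ev_L' ((N3 : ℕ) : ℝ)
  refine ⟨Kp * c1 * 3 + 2 * W + 1, N1 + N2 + N4 + 4, fun N hN P y hP hy1 hyK hcard e he h hh1 hh2 cc Y hY => ?_⟩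
  obtain ⟨ρ, w, hyp, f1, f2, f3⟩ := h1 N (by omega) P y N le_rfl (by omega) hP hy1 hyK hcard
  have f5 := h2 N (by omega)
  rw [one_mul] at f1
  obtain ⟨k, hk⟩ : ∃ k, k = Nat.log 2 N + 1 := ⟨_, rfl⟩
  obtain ⟨d1, d2⟩ := log_digits N (by omega)
  rw [← hk] at he hh2 d1 d2 ⊢
  have hyn : 0 < y := by omega
  have hy1r : (1 : ℝ) ≤ y := by exact_mod_cast hy1
  have hy0 : (0 : ℝ) < y := by linarith
  have hk1 : 2 ≤ k := by
    have : 1 ≤ Nat.log 2 N := Nat.log_pos (by norm_num) (by omega)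
    omega
  have hkr : (1 : ℝ) ≤ k := by exact_mod_cast (by omega : 1 ≤ k)
  have hNr : (0 : ℝ) < N := by exact_mod_cast (by omega : 0 < N)
  have hL0 : 0 < Real.log N := Real.log_pos (by exact_mod_cast (by omega : 1 < N))
  obtain ⟨S, hS⟩ : ∃ S : ℝ, S = (SS P N).card := ⟨_, rfl⟩
  have hS1 : (1 : ℝ) ≤ S := by rw [hS]; exact_mod_cast card_SS_pos P f3
  have hS0 : 0 < S := by linarith
  obtain ⟨K, hK⟩ : ∃ K, K = k + e := ⟨_, rfl⟩
  rw [← hK]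
  have hkK : k ≤ K := by omega
  obtain ⟨Q, hQ⟩ : ∃ Q, Q = y ^ c1 := ⟨_, rfl⟩
  have hQ1 : 1 ≤ Q := by rw [hQ]; exact Nat.pow_pos hyn
  have hQx : Q ≤ N := by
    rw [hQ]
    exact (Nat.pow_le_pow_right hyn (by omega)).trans f2
  have hQr : (1 : ℝ) ≤ Q := by exact_mod_cast hQ1
  have hkpow : (8 * (κ + 3) * 9 + 6 : ℕ) ≤ k := by
    have : ((8 * (κ + 3) * 9 + 6 : ℕ) : ℝ) ≤ k := f5.trans d1
    exact_mod_cast this
  -- `K ≤ y ^ 2`
  have he2 : e ≤ k := by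
    have e1 : 2 ^ e ≤ 2 ^ k := he.trans (hN3 k (by
      have : ((N3 : ℕ) : ℝ) ≤ k := (h3 N (by omega)).trans d1
      exact_mod_cast this))
    exact (Nat.pow_le_pow_iff_right (by norm_num)).1 e1
  have hKy : (K : ℝ) ≤ (y : ℝ) ^ 2 := by
    have e1 : (K : ℝ) ≤ 2 * k := by exact_mod_cast (by omega : K ≤ 2 * k)
    have e2 : (6 : ℝ) ≤ Real.log N := by
      refine le_trans ?_ f5
      exact_mod_cast (by omega : 6 ≤ 8 * (κ + 3) * 9 + 6)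
    have e3 : 6 ≤ (y : ℝ) := e2.trans f1
    nlinarith
  have hK0 : (0 : ℝ) < K := by exact_mod_cast (by omega : 0 < K)
  -- the characteristic function
  have hchar : ∀ t : ℕ, ‖∑ v ∈ SS P N, (((1 / ((SS P N).card : ℝ) : ℝ)) : ℂ) * ee ((Y v : ℝ) * ((t : ℝ) / ((2 ^ (K + 1) : ℕ) : ℝ)))‖ =
      1 / S * ‖∑ v ∈ SS P N, ee ((v : ℝ) * (((h * κ : ℕ) : ℝ) * ((t : ℝ) / ((2 ^ (K + 1) : ℕ) : ℝ))))‖ := by
    intro t
    obtain ⟨θ0, hθ0⟩ : ∃ θ0, θ0 = (t : ℝ) / ((2 ^ (K + 1) : ℕ) : ℝ) := ⟨_, rfl⟩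
    rw [← hθ0, ← hS]
    rcases hY with hY | hY
    · have e1 : ∑ v ∈ SS P N, ((1 / S : ℝ) : ℂ) * ee ((Y v : ℝ) * θ0) =
          ((1 / S : ℝ) : ℂ) * ee ((cc : ℝ) * θ0) * ∑ v ∈ SS P N, ee ((v : ℝ) * (((h * κ : ℕ) : ℝ) * θ0)) := by
        rw [mul_sum]
        apply sum_congr rfl
        intro v _
        rw [mul_assoc, ← ee_add, hY]
        congr 2
        push_cast
        ring
      rw [e1, norm_mul, norm_mul, norm_ee, mul_one, Complex.norm_real, Real.norm_of_nonneg (by positivity)]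
    · have e1 : ∑ v ∈ SS P N, ((1 / S : ℝ) : ℂ) * ee ((Y v : ℝ) * θ0) =
          ((1 / S : ℝ) : ℂ) * ee ((cc : ℝ) * θ0) * (starRingEnd ℂ) (∑ v ∈ SS P N, ee ((v : ℝ) * (((h * κ : ℕ) : ℝ) * θ0))) := by
        rw [map_sum, mul_sum]
        apply sum_congr rfl
        intro v _
        rw [Pool.Agent.N469.SM.conj_ee', mul_assoc, ← ee_add, hY]
        congr 2
        push_cast
        ring
      rw [e1, norm_mul, norm_mul, norm_ee, mul_one, Complex.norm_real, Real.norm_of_nonneg (by positivity), RCLike.norm_conj]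
  refine ⟨fun v _ => by positivity, ?_, ?_⟩
  · rw [sum_const, nsmul_eq_mul, ← hS]
    apply le_of_eq
    field_simp
  have hsub : Spec 2 V K (SS P N) (fun _ => 1 / ((SS P N).card : ℝ)) Y ⊆ maj (h * κ) (2 ^ (K + 1)) N Q := by
    intro t ht
    unfold Spec at ht
    rw [mem_filter] at ht
    obtain ⟨ht1, ht2⟩ := ht
    rw [hchar] at ht2
    obtain ⟨j, hj⟩ : ∃ j, j = Nat.log y N := ⟨_, rfl⟩
    have hy2 : 1 < y := by have := hyp.y4; omega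
    have hj1 : y ^ j ≤ N := by
      rw [hj]
      exact Nat.pow_log_le_self _ (by omega)
    have hj2 : N < y ^ (j + 1) := by
      have := Nat.lt_pow_succ_log_self hy2 N
      rw [← hj] at this
      exact this
    have hj3 : m * (14 + 2 * V') + 8 ≤ j := by
      rw [hj]
      apply Nat.le_log_of_pow_le hy2
      exact (Nat.pow_le_pow_right hyn (by omega)).trans f2
    obtain ⟨θ, hθ⟩ : ∃ θ : ℝ, θ = ((h * κ : ℕ) : ℝ) * ((t : ℝ) / ((2 ^ (K + 1) : ℕ) : ℝ)) := ⟨_, rfl⟩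
    rw [← hθ] at ht2
    rcases exp_alt hyp j V' hj1 hj2 hj3 θ with h7 | ⟨q, c, hq1, hq2, hq3⟩
    · exfalso
      rw [← hS] at h7
      have e1 : 1 / S * ‖∑ v ∈ SS P N, ee ((v : ℝ) * θ)‖ ≤ 1 / (K : ℝ) ^ V := by
        calc 1 / S * ‖∑ v ∈ SS P N, ee ((v : ℝ) * θ)‖ ≤ 1 / S * (S / (y : ℝ) ^ V') := mul_le_mul_of_nonneg_left h7 (by positivity)
          _ = 1 / (y : ℝ) ^ V' := by field_simp
          _ ≤ 1 / (K : ℝ) ^ V := by
              apply one_div_le_one_div_of_le (by positivity)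
              rw [hV', pow_mul]
              exact pow_le_pow_left₀ hK0.le hKy V
      linarith
    · rw [mem_maj]
      rw [← hc1] at hq2 hq3
      refine ⟨ht1, q, c, hq1, by rw [hQ]; exact hq2, ?_⟩
      rw [hθ] at hq3
      rw [hQ]
      push_cast
      push_cast at hq3
      exact hq3
  apply thin_card
  · intro t ht
    unfold Spec at ht
    rw [mem_filter, mem_range] at ht
    exact ht.1
  · have e0 : (((maj (h * κ) (2 ^ (K + 1)) N Q).card : ℕ) : ℝ) ≤ ((K ^ (Kp * c1 * 3 + 2 * W + 1) : ℕ) : ℝ) := by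
      have e1 := maj_card (h * κ) (2 ^ (K + 1)) N Q (Nat.mul_pos hh1 hκ) (Nat.pow_pos (by norm_num)) hQ1 hQx
      have e2 : (Q : ℝ) ≤ (k : ℝ) ^ (Kp * c1) := by
        rw [hQ, pow_mul]
        push_cast
        apply pow_le_pow_left₀ hy0.le
        exact hyK.trans (pow_le_pow_left₀ hL0.le d1 Kp)
      have e3 : ((h * κ : ℕ) : ℝ) ≤ κ * (k : ℝ) ^ W := by
        have : h * κ ≤ κ * k ^ W := by rw [mul_comm]; exact Nat.mul_le_mul_left _ hh2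
        exact_mod_cast this
      have e4 : ((2 ^ (K + 1) : ℕ) : ℝ) ≤ 4 * (k : ℝ) ^ W * N := by
        have a1 : 2 ^ (K + 1) ≤ 4 * k ^ W * N := by
          have a2 : 2 ^ Nat.log 2 N ≤ N := Nat.pow_log_le_self 2 (by omega)
          have a3 : K + 1 = Nat.log 2 N + 2 + e := by omega
          rw [a3, pow_add, pow_add]
          calc 2 ^ Nat.log 2 N * 2 ^ 2 * 2 ^ e ≤ N * 2 ^ 2 * k ^ W := Nat.mul_le_mul (Nat.mul_le_mul_right _ a2) he
            _ = _ := by ring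
        exact_mod_cast a1
      have hkW : (1 : ℝ) ≤ (k : ℝ) ^ W := one_le_pow₀ hkr
      have e5 : 2 * (Q : ℝ) * ((2 ^ (K + 1) : ℕ) : ℝ) / N + 1 ≤ 9 * Q * (k : ℝ) ^ W := by
        have a1 : 2 * (Q : ℝ) * ((2 ^ (K + 1) : ℕ) : ℝ) / N ≤ 8 * Q * (k : ℝ) ^ W := by
          rw [div_le_iff₀ hNr]
          calc 2 * (Q : ℝ) * ((2 ^ (K + 1) : ℕ) : ℝ) ≤ 2 * (Q : ℝ) * (4 * (k : ℝ) ^ W * N) := by gcongr
            _ = _ := by ring
        have a2 : 1 ≤ (Q : ℝ) * (k : ℝ) ^ W := by nlinarith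
        nlinarith
      have e6 : (((h * κ : ℕ) : ℝ) + 2) * Q + 1 ≤ (κ + 3) * (k : ℝ) ^ W * Q := by
        have a2 : 1 ≤ (Q : ℝ) * (k : ℝ) ^ W := by nlinarith
        have a3 : ((h * κ : ℕ) : ℝ) * Q ≤ κ * (k : ℝ) ^ W * Q := mul_le_mul_of_nonneg_right e3 (by positivity)
        have a4 : (Q : ℝ) ≤ (k : ℝ) ^ W * Q := le_mul_of_one_le_left (by positivity) hkW
        nlinarith
      have e7 : (((κ + 3) * 9 : ℕ) : ℝ) ≤ k := by exact_mod_cast (by omega : (κ + 3) * 9 ≤ k)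
      calc (((maj (h * κ) (2 ^ (K + 1)) N Q).card : ℕ) : ℝ) ≤
          (Q : ℝ) * ((((h * κ : ℕ) : ℝ) + 2) * Q + 1) * (2 * Q * ((2 ^ (K + 1) : ℕ) : ℝ) / N + 1) := e1
        _ ≤ (Q : ℝ) * ((κ + 3) * (k : ℝ) ^ W * Q) * (9 * Q * (k : ℝ) ^ W) := by gcongr
        _ = (((κ + 3) * 9 : ℕ) : ℝ) * (Q : ℝ) ^ 3 * (k : ℝ) ^ (2 * W) := by push_cast; ring
        _ ≤ k * ((k : ℝ) ^ (Kp * c1)) ^ 3 * (k : ℝ) ^ (2 * W) := by gcongr
        _ = (k : ℝ) ^ (Kp * c1 * 3 + 2 * W + 1) := by ring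
        _ ≤ (K : ℝ) ^ (Kp * c1 * 3 + 2 * W + 1) := pow_le_pow_left₀ (by positivity) (by exact_mod_cast hkK) _
        _ = _ := by push_cast; rfl
    exact (card_le_card hsub).trans (by exact_mod_cast e0)

end Pool.Agent.N469.TL
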