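import Pool.Agent.N469.TL.Law

set_option autoImplicit false

/-! The law at the level which belongs to a given `X`. -/

namespace Pool.Agent.N469.TL
open Finset
open Pool.Agent.H373R2.T7
open Pool.Agent.Y885 (TLaw)
open Pool.Agent.N469.SM (SS mem_SS one_mem_SS SS_mono card_SS_le card_SS_pos)

/-- `Y v = cc + h μ v` -/
lemma form (h : ℕ) (μ cc : ℤ) : (∀ v : ℕ, (cc + (h : ℤ) * (μ * (v : ℤ))) = cc + h * ((μ.natAbs : ℤ) * (v : ℤ))) ∨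
    (∀ v : ℕ, (cc + (h : ℤ) * (μ * (v : ℤ))) = cc - h * ((μ.natAbs : ℤ) * (v : ℤ))) := by
  rcases le_or_gt 0 μ with h0 | h0
  · left
    intro v
    have : (μ.natAbs : ℤ) = μ := Int.natAbs_of_nonneg h0
    rw [this]
  · right
    intro v
    have : (μ.natAbs : ℤ) = -μ := by omega
    rw [this]
    ring

/-- the level which belongs to `X` -/
lemma level (W : ℕ) : ∃ N₀ : ℕ, ∀ N, N₀ ≤ N → ∀ X : ℕ, N ≤ X → (X : ℝ) ≤ N * Real.log X ^ W →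
    4 * X ≤ 2 ^ Nat.clog 2 (4 * X) ∧ 2 ^ Nat.clog 2 (4 * X) ≤ 8 * X ∧ Real.log X ≤ 2 * Real.log N ∧
    ∃ e : ℕ, Nat.clog 2 (4 * X) = Nat.log 2 N + 1 + e ∧ 2 ^ e ≤ (Nat.log 2 N + 1) ^ (W + 1) := by
  obtain ⟨n1, h1⟩ := ev_log' W 1
  obtain ⟨Z, hZ⟩ : ∃ Z : ℕ, Z = 2 ^ (2 ^ (W + 3)) := ⟨_, rfl⟩
  refine ⟨n1 + Z + 3, fun N hN X hNX hX => ?_⟩
  obtain ⟨k, hk⟩ : ∃ k, k = Nat.log 2 N + 1 := ⟨_, rfl⟩
  obtain ⟨K, hK⟩ : ∃ K, K = Nat.clog 2 (4 * X) := ⟨_, rfl⟩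
  have hlog := (log_digits N (by omega)).1
  rw [← hk] at hlog ⊢
  rw [← hK]
  have hN0 : (0 : ℝ) < N := by exact_mod_cast (by omega : 0 < N)
  have hX0 : (0 : ℝ) < X := by exact_mod_cast (by omega : 0 < X)
  have a1 : 4 * X ≤ 2 ^ K := by rw [hK]; exact Nat.le_pow_clog (by norm_num) _
  have a2 : 2 ^ K ≤ 8 * X := by
    have b1 : 0 < K := by rw [hK]; exact Nat.clog_pos (by norm_num) (by omega)
    have b2 : 2 ^ (K - 1) < 4 * X := by rw [hK]; exact Nat.pow_pred_clog_lt_self (by norm_num) (by omega)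
    have b3 : 2 ^ K = 2 * 2 ^ (K - 1) := by rw [← pow_succ']; congr 1; omega
    omega
  have a3 : Real.log X ≤ 2 * Real.log N := by
    have b1 := h1 X (by omega)
    rw [one_mul] at b1
    have b2 : √(X : ℝ) * √(X : ℝ) ≤ N * √(X : ℝ) := by
      rw [Real.mul_self_sqrt hX0.le]
      exact hX.trans (mul_le_mul_of_nonneg_left b1 hN0.le)
    have b3 := le_of_mul_le_mul_right b2 (Real.sqrt_pos.2 hX0)
    rw [Real.sqrt_le_left hN0.le] at b3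
    have b4 := Real.log_le_log hX0 b3
    rw [Real.log_pow] at b4
    push_cast at b4
    exact b4
  have hk1 : 2 ^ k ≤ 2 * N := by
    rw [hk, pow_succ, mul_comm]
    exact Nat.mul_le_mul_left _ (Nat.pow_log_le_self 2 (by omega))
  have hk2 : N < 2 ^ k := by rw [hk]; exact Nat.lt_pow_succ_log_self (by norm_num) N
  have hkK : k ≤ K := (Nat.pow_le_pow_iff_right (by norm_num : 1 < 2)).1 (by omega)
  refine ⟨a1, a2, a3, K - k, by omega, ?_⟩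
  have hkW : 2 ^ (W + 3) ≤ k := by
    have : 2 ^ (W + 3) ≤ Nat.log 2 N := (Nat.le_log_iff_pow_le (by norm_num) (by omega)).2 (by rw [← hZ]; omega)
    omega
  have hLX0 : 0 ≤ Real.log X := Real.log_natCast_nonneg X
  have hk0 : (0 : ℝ) ≤ k := Nat.cast_nonneg _
  have b1 : ((2 ^ (K - k) : ℕ) : ℝ) * N ≤ 8 * (N * Real.log X ^ W) := by
    have c1 : 2 ^ (K - k) * N ≤ 8 * X := by
      calc 2 ^ (K - k) * N ≤ 2 ^ (K - k) * 2 ^ k := Nat.mul_le_mul_left _ hk2.le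
        _ = 2 ^ K := by rw [← pow_add]; congr 1; omega
        _ ≤ 8 * X := a2
    have c2 : ((2 ^ (K - k) : ℕ) : ℝ) * N ≤ 8 * X := by exact_mod_cast c1
    linarith
  have b2 : ((2 ^ (K - k) : ℕ) : ℝ) ≤ 8 * Real.log X ^ W := by
    have c1 : ((2 ^ (K - k) : ℕ) : ℝ) * N ≤ (8 * Real.log X ^ W) * N := by linarith
    exact le_of_mul_le_mul_right c1 hN0
  have b3 : 8 * Real.log X ^ W ≤ ((k ^ (W + 1) : ℕ) : ℝ) := by
    have c1 : Real.log X ≤ 2 * k := by linarith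
    calc 8 * Real.log X ^ W ≤ 8 * (2 * (k : ℝ)) ^ W := by gcongr
      _ = 2 ^ (W + 3) * (k : ℝ) ^ W := by rw [mul_pow, pow_add]; ring
      _ ≤ k * (k : ℝ) ^ W := by
          apply mul_le_mul_of_nonneg_right _ (by positivity)
          exact_mod_cast hkW
      _ = _ := by push_cast; ring
  exact_mod_cast b2.trans b3

/-- the law at the level which belongs to `X` -/
theorem sm_lawX (δ : ℝ) (hδ : 0 < δ) (Kp : ℕ) (μ : ℤ) (hμ : μ ≠ 0) (W V : ℕ) : ∃ c N₀ : ℕ, ∀ N, N₀ ≤ N → ∀ (P : Finset ℕ) (y : ℕ),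
    (∀ p ∈ P, p.Prime ∧ p ≤ y) → 1 ≤ y → (y : ℝ) ≤ Real.log N ^ Kp → (y : ℝ) ^ (1 / 2 + δ) * Real.log N ≤ P.card →
    ∀ X : ℕ, N ≤ X → (X : ℝ) ≤ N * Real.log X ^ W → ∀ h : ℕ, 1 ≤ h → h ≤ (Nat.log 2 N + 1) ^ (W + 1) → ∀ cc : ℤ,
      TLaw 2 3 c V (Nat.clog 2 (4 * X)) (SS P N) (fun _ => 1 / ((SS P N).card : ℝ)) (fun v => cc + (h : ℤ) * (μ * (v : ℤ))) := by
  obtain ⟨N1, h1⟩ := level W
  obtain ⟨c, N2, h2⟩ := sm_tlaw δ hδ Kp μ.natAbs (W + 1) V (by omega)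
  refine ⟨c, N1 + N2, fun N hN P y hP hy1 hyK hcard X hNX hX h hh1 hh2 cc => ?_⟩
  obtain ⟨_, _, _, e, g1, g2⟩ := h1 N (by omega) X hNX hX
  rw [g1]
  exact h2 N (by omega) P y hP hy1 hyK hcard e g2 h hh1 hh2 cc _ (form h μ cc)

end Pool.Agent.N469.TL
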