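import Pool.Agent.N469.TL.Fin
import Pool.Agent.Y885.LD3

set_option autoImplicit false

/-! The level of distribution for almost all smooth residues. -/

namespace Pool.Agent.N469.TL
open Finset
open Pool.Agent.H373R2.T7
open Pool.Agent.Y885 (TLaw)
open Pool.Agent.W93.LV
open Pool.Agent.TH212.EH (W WW)
open Pool.Agent.N469.SM (SS mem_SS one_mem_SS SS_mono card_SS_le card_SS_pos)

/-- `both`, if the property depends on a constant which may depend on `δ` -/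
theorem bothD (δ : ℝ) (hδ : 0 < δ) (Kp U : ℕ) (H : ℕ → ℕ → (ℕ → Prop) → Prop)
    (hmono : ∀ D D' : ℕ, D ≤ D' → ∀ N E, H D' N E → H D N E)
    (h : ∀ δ : ℝ, 0 < δ → ∃ D N₀ : ℕ, ∀ N, N₀ ≤ N → ∀ P y, Cond δ Kp N P y → ∀ E : ℕ → Prop, ∀ _ : DecidablePred E, H D N E →
      ∑ v ∈ SS P N, (if E v then 1 / ((SS P N).card : ℝ) else 0) ≤ 1 / Real.log N ^ U) :
    ∃ D N₀ : ℕ, ∀ N, N₀ ≤ N → ∀ y : ℕ, 1 ≤ y → (y : ℝ) ≤ Real.log N ^ Kp → ∀ E : ℕ → Prop, ∀ _ : DecidablePred E, H D N E →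
      (∀ P : Finset ℕ, (∀ p ∈ P, p.Prime ∧ p ≤ y) → (y : ℝ) ^ (1 / 2 + δ) * Real.log N ≤ P.card →
        ((((Icc 1 N).filter fun v : ℕ => v.primeFactors ⊆ P).filter E).card : ℝ) ≤
          (((Icc 1 N).filter fun v : ℕ => v.primeFactors ⊆ P).card : ℝ) / Real.log N ^ U) ∧
      (Real.log N ^ (2 + δ) ≤ y →
        ((((Icc 1 N).filter fun v : ℕ => ∀ p ∈ v.primeFactors, p ≤ y).filter E).card : ℝ) ≤
          (((Icc 1 N).filter fun v : ℕ => ∀ p ∈ v.primeFactors, p ≤ y).card : ℝ) / Real.log N ^ U) := by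
  obtain ⟨δ', N1, hδ', h1⟩ := Pool.Agent.N469.SQ.PR_cond δ hδ
  obtain ⟨D2, N2, h2⟩ := h δ hδ
  obtain ⟨D3, N3, h3⟩ := h δ' hδ'
  refine ⟨D2 + D3, N1 + N2 + N3 + 1, fun N hN y hy hy' E _ hE => ⟨fun P hP hcard => ?_, fun hyl => ?_⟩⟩
  · exact count P N (by omega) _ E (h2 N (by omega) P y ⟨hP, hy, hy', hcard⟩ E _ (hmono _ _ (by omega) N E hE))
  · rw [smooth_eq]
    exact count _ N (by omega) _ E (h3 N (by omega) (Pool.Agent.N469.SQ.PR y) y ⟨fun p hp => Pool.Agent.N469.SQ.mem_PR.1 hp, hy, hy',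
      (h1 N (by omega) y hyl).2⟩ E _ (hmono _ _ (by omega) N E hE))

theorem sm_levels (μ : ℤ) (hμ : μ ≠ 0) (Kp Bc A T U Wd : ℕ) (δ : ℝ) (hδ : 0 < δ) : ∃ D N₀ : ℕ, ∀ N, N₀ ≤ N → ∀ P y, Cond δ Kp N P y →
    ∀ E : ℕ → Prop, ∀ _ : DecidablePred E,
    (∃ (cc : ℤ) (X Q R : ℕ) (lam : ℕ → ℕ → ℝ) (x : ℕ → ℕ → ℕ), |cc| ≤ Bc * N ∧ (Bc + μ.natAbs + 1) * N ≤ X ∧ (X : ℝ) ≤ N * Real.log X ^ Wd ∧
      (Q : ℝ) * Real.exp (D * Real.log (Real.log N) ^ 2) ≤ X ∧ (R : ℝ) ≤ Real.log N ^ T ∧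
      (∀ l m, |lam l m| ≤ (m.divisors.card * Real.log N) ^ T) ∧ (∀ l m, x l m ≤ X) ∧
      ∀ v, E v → ∃ r : ℤ, |(r : ℝ)| ≤ Real.log N ^ A ∧ 0 < cc + μ * (v : ℤ) + r ∧ ∃ l < R,
        (∃ x' ≤ X, (X : ℝ) / Real.log N ^ U < |W (lam l) Q x' (cc + μ * (v : ℤ) + r).toNat|) ∨
        (X : ℝ) / Real.log N ^ U < |WW (lam l) (x l) Q (cc + μ * (v : ℤ) + r).toNat|) →
    ∑ v ∈ SS P N, (if E v then 1 / ((SS P N).card : ℝ) else 0) ≤ 1 / Real.log N ^ U := by
  classical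
  obtain ⟨U', hU'⟩ : ∃ U', U' = U + A + T + 3 := ⟨_, rfl⟩
  obtain ⟨V, hV⟩ := Pool.Agent.Y885.tl_levels T U'
  obtain ⟨c, N1, h1⟩ := sm_lawX δ hδ Kp μ hμ Wd V
  obtain ⟨N2, h2⟩ := level Wd
  obtain ⟨D₀, K0, h3⟩ := hV 2 3 8 c le_rfl (by norm_num) (by norm_num)
  obtain ⟨N4, h4⟩ := ev_L' ((16 : ℕ) : ℝ)
  obtain ⟨N5, h5⟩ := ev_log' A 1
  obtain ⟨Z, hZ⟩ : ∃ Z : ℕ, Z = 2 ^ K0 := ⟨_, rfl⟩
  refine ⟨4 * D₀, N1 + N2 + N4 + N5 + Z + 3, fun N hN P y hP E _ hE => ?_⟩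
  obtain ⟨cc, X, Q, R, lam, x, hcc, hX1, hX2, hQ, hR, hlam, hx, hbad⟩ := hE
  have hNX : N ≤ X := le_trans (Nat.le_mul_of_pos_left _ (by omega)) hX1
  obtain ⟨q1, q2, q3, e, q4, q5⟩ := h2 N (by omega) X hNX hX2
  have hL4 := h4 N (by omega)
  have hLX0 : 0 < Real.log X := Real.log_pos (by exact_mod_cast (by omega : 1 < X))
  have hL1 : (16 : ℝ) ≤ Real.log N := by exact_mod_cast hL4
  have hLN0 : 0 < Real.log N := by linarith
  have hX0 : (0 : ℝ) < X := by exact_mod_cast (by omega : 0 < X)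
  obtain ⟨K, hK⟩ : ∃ K, K = Nat.clog 2 (4 * X) := ⟨_, rfl⟩
  have hlogK : Real.log N ≤ K := by
    refine (log_digits N (by omega)).1.trans ?_
    rw [hK, q4]
    exact_mod_cast Nat.le_add_right _ _
  have hK0 : (0 : ℝ) < K := by linarith
  have hK5 : (K : ℝ) ≤ Real.log N ^ 2 := by
    have a1 : ((2 ^ K : ℕ) : ℝ) ≤ 8 * X := by rw [hK]; exact_mod_cast q2
    have a2 := Real.log_le_log (by positivity) a1
    push_cast at a2
    rw [Real.log_pow, Real.log_mul (by norm_num) hX0.ne'] at a2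
    have a3 : Real.log 8 ≤ 3 := by
      rw [show (8 : ℝ) = 2 ^ 3 by norm_num, Real.log_pow]
      have := Real.log_two_lt_d9
      push_cast
      linarith
    have a4 := Real.log_two_gt_d9
    have a5 : (K : ℝ) * 0.5 ≤ K * Real.log 2 := mul_le_mul_of_nonneg_left (by linarith) hK0.le
    nlinarith
  have hKl : Real.log K ^ 2 ≤ 4 * Real.log (Real.log N) ^ 2 := by
    have a1 : 0 ≤ Real.log K := Real.log_natCast_nonneg _
    have a2 : Real.log K ≤ 2 * Real.log (Real.log N) := by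
      have := Real.log_le_log hK0 hK5
      rw [Real.log_pow] at this
      exact_mod_cast this
    calc Real.log K ^ 2 ≤ (2 * Real.log (Real.log N)) ^ 2 := pow_le_pow_left₀ a1 a2 2
      _ = _ := by ring
  have hQ' : (Q : ℝ) * Real.exp ((D₀ : ℝ) * Real.log K ^ 2) ≤ X := by
    refine le_trans ?_ hQ
    apply mul_le_mul_of_nonneg_left _ (Nat.cast_nonneg _)
    apply Real.exp_le_exp.2
    push_cast
    nlinarith [Nat.cast_nonneg (α := ℝ) D₀]
  obtain ⟨M, hM⟩ : ∃ M, M = ⌊Real.log N ^ A⌋₊ := ⟨_, rfl⟩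
  have hMN : M ≤ N := by
    rw [hM]
    apply Nat.floor_le_of_le
    have a1 := h5 N (by omega)
    rw [one_mul] at a1
    refine a1.trans ?_
    rw [Real.sqrt_le_left (by positivity)]
    have : (1 : ℝ) ≤ N := by exact_mod_cast (by omega : 1 ≤ N)
    nlinarith
  have hMr : (M : ℝ) ≤ Real.log N ^ A := by rw [hM]; exact Nat.floor_le (by positivity)
  have hkey : ∀ r ∈ Icc (-(M : ℤ)) M, _ := fun r hr => h3 K (by
      rw [hK, q4]
      have : K0 ≤ Nat.log 2 N := (Nat.le_log_iff_pow_le (by norm_num) (by omega)).2 (by rw [← hZ]; omega)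
      omega) ℕ (SS P N) (fun _ => 1 / ((SS P N).card : ℝ)) (fun v => (cc + r) + ((1 : ℕ) : ℤ) * (μ * (v : ℤ)))
      (by rw [hK]; exact h1 N (by omega) P y hP.primes hP.one hP.top hP.card X hNX hX2 1 le_rfl (Nat.one_le_pow _ _ (by omega)) (cc + r))
      X (by rw [hK]; exact q1) (by rw [hK]; exact q2) (by
      intro v hv
      have a1 := abs_val μ Bc N v cc hcc (mem_SS.1 hv).1.2
      rw [mem_Icc] at hr
      have a2 : |r| ≤ N := by
        rw [abs_le]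
        have : (M : ℤ) ≤ N := by exact_mod_cast hMN
        constructor <;> linarith
      have a3 : |(cc + μ * (v : ℤ)) + r| ≤ |cc + μ * (v : ℤ)| + |r| := abs_add_le _ _
      have a4 : (((Bc + μ.natAbs + 1) * N : ℕ) : ℤ) ≤ X := by exact_mod_cast hX1
      rw [show (cc + r) + ((1 : ℕ) : ℤ) * (μ * (v : ℤ)) = (cc + μ * (v : ℤ)) + r by push_cast; ring]
      push_cast at a4 a1
      linarith) Q hQ'
  have hlam' : ∀ l q, |lam l q| ≤ (K : ℝ) ^ T * (q.divisors.card : ℝ) ^ T := by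
    intro l q
    refine (hlam l q).trans ?_
    rw [mul_pow, mul_comm]
    gcongr
  have hdiv : (X : ℝ) / (K : ℝ) ^ U' ≤ X / Real.log N ^ U := by
    apply div_le_div_of_nonneg_left hX0.le (by positivity)
    calc Real.log N ^ U ≤ (K : ℝ) ^ U := pow_le_pow_left₀ hLN0.le hlogK _
      _ ≤ (K : ℝ) ^ U' := pow_le_pow_right₀ (by linarith) (by omega)
  obtain ⟨b1, hb1⟩ : ∃ b1 : ℤ → ℕ → ℕ → Prop, b1 = fun r l (v : ℕ) => 0 < (cc + r) + ((1 : ℕ) : ℤ) * (μ * (v : ℤ)) ∧ ∃ x' ≤ X,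
    (X : ℝ) / (K : ℝ) ^ U' < |W (lam l) Q x' ((cc + r) + ((1 : ℕ) : ℤ) * (μ * (v : ℤ))).toNat| := ⟨_, rfl⟩
  obtain ⟨b2, hb2⟩ : ∃ b2 : ℤ → ℕ → ℕ → Prop, b2 = fun r l (v : ℕ) => 0 < (cc + r) + ((1 : ℕ) : ℤ) * (μ * (v : ℤ)) ∧
    (X : ℝ) / (K : ℝ) ^ U' < |WW (lam l) (x l) Q ((cc + r) + ((1 : ℕ) : ℤ) * (μ * (v : ℤ))).toNat| := ⟨_, rfl⟩
  have g1 : ∀ r ∈ Icc (-(M : ℤ)) M, ∀ l ∈ range R, ∑ v ∈ SS P N, (if b1 r l v then 1 / ((SS P N).card : ℝ) else 0) ≤ 1 / (K : ℝ) ^ U' := by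
    intro r hr l _
    exact ((hkey r hr).1 (lam l) (hlam' l)).1 _ _ (fun v _ hv => by rw [hb1] at hv; exact hv)
  have g2 : ∀ r ∈ Icc (-(M : ℤ)) M, ∀ l ∈ range R, ∑ v ∈ SS P N, (if b2 r l v then 1 / ((SS P N).card : ℝ) else 0) ≤ 1 / (K : ℝ) ^ U' := by
    intro r hr l _
    exact ((hkey r hr).1 (lam l) (hlam' l)).2 (x l) (hx l) _ _ (fun v _ hv => by rw [hb2] at hv; exact hv)
  have hp0 : (0 : ℝ) ≤ 1 / ((SS P N).card : ℝ) := by positivity
  have g3 : ∀ v ∈ SS P N, (if E v then 1 / ((SS P N).card : ℝ) else 0) ≤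
      ∑ r ∈ Icc (-(M : ℤ)) M, ∑ l ∈ range R, ((if b1 r l v then 1 / ((SS P N).card : ℝ) else 0) + (if b2 r l v then 1 / ((SS P N).card : ℝ) else 0)) := by
    intro v _
    have hnn : ∀ r l, 0 ≤ (if b1 r l v then 1 / ((SS P N).card : ℝ) else 0) + (if b2 r l v then 1 / ((SS P N).card : ℝ) else 0) := by
      intro r l
      apply add_nonneg <;> split_ifs <;> first | exact hp0 | exact le_rfl
    split_ifs with hEv
    · obtain ⟨r, hr, hpos, l, hl, hor⟩ := hbad v hEv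
      have hrM : r ∈ Icc (-(M : ℤ)) M := by
        have a1 : r.natAbs ≤ M := by
          rw [hM]
          apply Nat.le_floor
          rw [Nat.cast_natAbs, Int.cast_abs]
          exact hr
        rw [mem_Icc]
        omega
      have e0 : cc + μ * (v : ℤ) + r = (cc + r) + ((1 : ℕ) : ℤ) * (μ * (v : ℤ)) := by push_cast; ring
      rw [e0] at hpos hor
      have hone : 1 / ((SS P N).card : ℝ) ≤ (if b1 r l v then 1 / ((SS P N).card : ℝ) else 0) + (if b2 r l v then 1 / ((SS P N).card : ℝ) else 0) := by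
        rcases hor with ⟨x', hx', hor⟩ | hor
        · have : b1 r l v := by rw [hb1]; exact ⟨hpos, x', hx', hdiv.trans_lt hor⟩
          rw [if_pos this]
          have : (0 : ℝ) ≤ (if b2 r l v then 1 / ((SS P N).card : ℝ) else 0) := by split_ifs <;> first | exact hp0 | exact le_rfl
          linarith
        · have : b2 r l v := by rw [hb2]; exact ⟨hpos, hdiv.trans_lt hor⟩
          rw [if_pos this]
          have : (0 : ℝ) ≤ (if b1 r l v then 1 / ((SS P N).card : ℝ) else 0) := by split_ifs <;> first | exact hp0 | exact le_rfl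
          linarith
      refine hone.trans ?_
      refine le_trans ?_ (single_le_sum (f := fun r => ∑ l ∈ range R, ((if b1 r l v then 1 / ((SS P N).card : ℝ) else 0) + (if b2 r l v then 1 / ((SS P N).card : ℝ) else 0)))
        (fun r _ => sum_nonneg fun l _ => hnn r l) hrM)
      exact single_le_sum (f := fun l => ((if b1 r l v then 1 / ((SS P N).card : ℝ) else 0) + (if b2 r l v then 1 / ((SS P N).card : ℝ) else 0))) (fun l _ => hnn r l) (mem_range.2 hl)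
    · exact sum_nonneg fun r _ => sum_nonneg fun l _ => hnn r l
  refine (sum_le_sum g3).trans ?_
  rw [sum_comm]
  have g4 : ∀ r ∈ Icc (-(M : ℤ)) M, ∑ v ∈ SS P N, ∑ l ∈ range R, ((if b1 r l v then 1 / ((SS P N).card : ℝ) else 0) + (if b2 r l v then 1 / ((SS P N).card : ℝ) else 0)) ≤
      R * (2 * (1 / (K : ℝ) ^ U')) := by
    intro r hr
    rw [sum_comm]
    refine (sum_le_sum (fun l hl => ?_)).trans (le_of_eq (by rw [sum_const, card_range, nsmul_eq_mul]))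
    rw [sum_add_distrib, two_mul]
    exact add_le_add (g1 r hr l hl) (g2 r hr l hl)
  refine (sum_le_sum g4).trans ?_
  rw [sum_const, nsmul_eq_mul, Int.card_Icc]
  have hMc : (((M : ℤ) + 1 - -(M : ℤ)).toNat : ℝ) ≤ 3 * Real.log N ^ A := by
    have e1 : ((M : ℤ) + 1 - -(M : ℤ)).toNat = 2 * M + 1 := by omega
    rw [e1]
    push_cast
    have : (1 : ℝ) ≤ Real.log N ^ A := one_le_pow₀ (by linarith)
    linarith
  have hUK : Real.log N ^ U' ≤ (K : ℝ) ^ U' := pow_le_pow_left₀ hLN0.le hlogK _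
  calc (((M : ℤ) + 1 - -(M : ℤ)).toNat : ℝ) * (R * (2 * (1 / (K : ℝ) ^ U'))) ≤ (3 * Real.log N ^ A) * (Real.log N ^ T * (2 * (1 / Real.log N ^ U'))) := by
        gcongr
    _ = 6 * (Real.log N ^ A * Real.log N ^ T) / Real.log N ^ U' := by ring
    _ ≤ 1 / Real.log N ^ U := by
        rw [div_le_div_iff₀ (by positivity) (by positivity), one_mul, hU']
        have e2 : Real.log N ^ (U + A + T + 3) = Real.log N ^ 3 * (Real.log N ^ A * Real.log N ^ T * Real.log N ^ U) := by ring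
        rw [e2]
        have e3 : (6 : ℝ) ≤ Real.log N ^ 3 := by
          have : Real.log N ≤ Real.log N ^ 3 := le_self_pow₀ (by linarith) (by norm_num)
          linarith
        have e4 : 0 < Real.log N ^ A * Real.log N ^ T * Real.log N ^ U := by positivity
        nlinarith

end Pool.Agent.N469.TL
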