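import Pool.Agent.N469.TL.Windows

set_option autoImplicit false

/-! Goldbach pairs for all the even multiples of all the integers near almost all smooth numbers. -/

namespace Pool.Agent.N469.TL
open Finset
open Pool.Agent.H373R2.T7
open Pool.Agent.N469.SM (SS mem_SS one_mem_SS SS_mono card_SS_le card_SS_pos)

theorem sm_mult (μ : ℤ) (hμ : μ ≠ 0) (Kp Bc A W J U m₀ : ℕ) (ε : ℝ) (hε : 0 < ε) (Pr : ℕ → Prop)
    (hPr : ∀ m : ℕ, m₀ ≤ m → 2 ∣ m → Pool.Agent.W93.PG.WinP ε A m → Pr m) (δ : ℝ) (hδ : 0 < δ) :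
    ∃ N₀ : ℕ, ∀ N, N₀ ≤ N → ∀ P y, Cond δ Kp N P y → ∀ E : ℕ → Prop, ∀ _ : DecidablePred E,
    (∃ cc : ℤ, |cc| ≤ Bc * N ∧ ∀ v, E v → ∃ h : ℕ, 1 ≤ h ∧ (h : ℝ) ≤ Real.log N ^ J ∧ ∃ r : ℤ, |(r : ℝ)| ≤ Real.log N ^ W ∧
      0 < (h : ℤ) * (cc + μ * (v : ℤ) + r) ∧ 2 ∣ (h : ℤ) * (cc + μ * (v : ℤ) + r) ∧ ¬ Pr ((h : ℤ) * (cc + μ * (v : ℤ) + r)).toNat) →
    ∑ v ∈ SS P N, (if E v then 1 / ((SS P N).card : ℝ) else 0) ≤ 1 / Real.log N ^ U := by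
  classical
  obtain ⟨U', hU'⟩ : ∃ U', U' = (U + J + 1) + W + 1 := ⟨_, rfl⟩
  obtain ⟨e₁, he₁⟩ : ∃ e₁, e₁ = 2 * (Bc + 1) + μ.natAbs + 3 := ⟨_, rfl⟩
  obtain ⟨c₁, N1, h1⟩ := sm_tlaw δ hδ Kp μ.natAbs (J + 1) (U' + 3) (by omega)
  obtain ⟨V, hV⟩ := Pool.Agent.Y885.tl_windows 2 le_rfl 3 c₁ A U' m₀ (by norm_num) ε hε Pr hPr
  obtain ⟨c₂, N2, h2⟩ := sm_tlaw δ hδ Kp μ.natAbs (J + 1) V (by omega)
  obtain ⟨K0, h3⟩ := hV c₂
  obtain ⟨N4, h4⟩ := near J U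
  obtain ⟨N5, h5⟩ := near W (U + J + 1)
  obtain ⟨T, hT⟩ : ∃ T : ℕ, T = 2 ^ (e₁ + 3) := ⟨_, rfl⟩
  obtain ⟨Z, hZ⟩ : ∃ Z : ℕ, Z = 2 ^ (K0 + T) := ⟨_, rfl⟩
  refine ⟨N1 + N2 + N4 + N5 + Z + 3, fun N hN P y hP E _ hE => ?_⟩
  obtain ⟨cc, hcc, hbad⟩ := hE
  have hk : K0 + T ≤ Nat.log 2 N := (Nat.le_log_iff_pow_le (by norm_num) (by omega)).2 (by rw [← hZ]; omega)
  have hlog := (log_digits N (by omega)).1
  have hLN0 : 0 < Real.log N := Real.log_pos (by exact_mod_cast (by omega : 1 < N))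
  have hp0 : (0 : ℝ) ≤ 1 / ((SS P N).card : ℝ) := by positivity
  -- the level
  obtain ⟨k, hkd⟩ : ∃ k, k = Nat.log 2 N + 1 := ⟨_, rfl⟩
  obtain ⟨e₂, he₂⟩ : ∃ e₂, e₂ = Nat.clog 2 (k ^ J) := ⟨_, rfl⟩
  have hk1 : 1 ≤ k := by omega
  have b1 : k ^ J ≤ 2 ^ e₂ := by rw [he₂]; exact Nat.le_pow_clog (by norm_num) _
  have b2 : 2 ^ e₂ ≤ 2 * k ^ J := by
    rcases Nat.eq_zero_or_pos e₂ with h0 | h0
    · rw [h0, pow_zero]
      have := Nat.one_le_pow J k hk1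
      omega
    · have b3 : 2 ^ (e₂ - 1) < k ^ J := by
        rw [he₂] at h0 ⊢
        exact Nat.pow_pred_clog_lt_self (by norm_num) (by
          by_contra hc
          push Not at hc
          rw [Nat.clog_of_right_le_one hc] at h0
          omega)
      have : 2 ^ e₂ = 2 * 2 ^ (e₂ - 1) := by rw [← pow_succ']; congr 1; omega
      omega
  have he : 2 ^ (e₁ + 2 + e₂) ≤ (Nat.log 2 N + 1) ^ (J + 1) := by
    rw [← hkd]
    calc 2 ^ (e₁ + 2 + e₂) = 2 ^ (e₁ + 2) * 2 ^ e₂ := pow_add _ _ _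
      _ ≤ 2 ^ (e₁ + 2) * (2 * k ^ J) := Nat.mul_le_mul_left _ b2
      _ = 2 ^ (e₁ + 3) * k ^ J := by ring
      _ ≤ k * k ^ J := Nat.mul_le_mul_right _ (by rw [← hT]; omega)
      _ = k ^ (J + 1) := by ring
  -- for one multiplier and one shift
  have hone : ∀ h : ℕ, 1 ≤ h → (h : ℝ) ≤ Real.log N ^ J → ∀ r : ℤ, |r| ≤ N →
      ∑ v ∈ SS P N, (if (0 < (h : ℤ) * (cc + μ * (v : ℤ) + r) ∧ 2 ∣ (h : ℤ) * (cc + μ * (v : ℤ) + r) ∧
        ¬ Pr ((h : ℤ) * (cc + μ * (v : ℤ) + r)).toNat) then 1 / ((SS P N).card : ℝ) else 0) ≤ 1 / Real.log N ^ U' := by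
    intro h hh1 hh2 r hr
    have hhk : h ≤ k ^ J := by
      have : (h : ℝ) ≤ ((k ^ J : ℕ) : ℝ) := by
        refine hh2.trans ?_
        push_cast
        apply pow_le_pow_left₀ hLN0.le
        rw [hkd]
        exact hlog
      exact_mod_cast this
    have hform : (∀ v : ℕ, ((h : ℤ) * (cc + μ * (v : ℤ) + r)) = (h : ℤ) * (cc + r) + (h : ℤ) * ((μ.natAbs : ℤ) * (v : ℤ))) ∨
        (∀ v : ℕ, ((h : ℤ) * (cc + μ * (v : ℤ) + r)) = (h : ℤ) * (cc + r) - (h : ℤ) * ((μ.natAbs : ℤ) * (v : ℤ))) := by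
      rcases form h μ ((h : ℤ) * (cc + r)) with h' | h'
      · left
        intro v
        rw [← h' v]
        ring
      · right
        intro v
        rw [← h' v]
        ring
    have hhw : h ≤ (Nat.log 2 N + 1) ^ (J + 1) := by
      rw [← hkd]
      exact hhk.trans (Nat.pow_le_pow_right hk1 (by omega))
    have l1 := h1 N (by omega) P y hP.primes hP.one hP.top hP.card (e₁ + 2 + e₂) he h hh1 hhw ((h : ℤ) * (cc + r))
      (fun v => (h : ℤ) * (cc + μ * (v : ℤ) + r)) hform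
    have l2 := h2 N (by omega) P y hP.primes hP.one hP.top hP.card (e₁ + 2 + e₂) he h hh1 hhw ((h : ℤ) * (cc + r))
      (fun v => (h : ℤ) * (cc + μ * (v : ℤ) + r)) hform
    rw [← hkd, show k + (e₁ + 2 + e₂) = (k + e₁ + e₂) + 2 by ring] at l1 l2
    have key := h3 (k + e₁ + e₂) (by omega) ℕ _ _ _ l1 l2 (by
      intro v hv
      have a1 := abs_val μ Bc N v cc hcc (mem_SS.1 hv).1.2
      have a3 : |(cc + μ * (v : ℤ)) + r| ≤ |cc + μ * (v : ℤ)| + |r| := abs_add_le _ _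
      have a4 : N < 2 ^ (Nat.log 2 N + 1) := Nat.lt_pow_succ_log_self (by norm_num) N
      rw [← hkd] at a4
      have a5 : (N : ℤ) ≤ (2 : ℤ) ^ k := by exact_mod_cast a4.le
      have a6 : ((e₁ : ℕ) : ℤ) ≤ (2 : ℤ) ^ e₁ := by exact_mod_cast (Nat.lt_two_pow_self).le
      have a7 : |(cc + μ * (v : ℤ)) + r| ≤ (e₁ : ℤ) * N := by
        have : ((e₁ : ℕ) : ℤ) = 2 * (Bc + 1) + μ.natAbs + 3 := by rw [he₁]; push_cast; ring
        rw [this]
        push_cast at a1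
        have : (0 : ℤ) ≤ Bc * (N : ℤ) := by positivity
        nlinarith
      have a8 : |(cc + μ * (v : ℤ)) + r| ≤ (2 : ℤ) ^ (k + e₁) := by
        refine a7.trans ?_
        rw [pow_add, mul_comm]
        exact mul_le_mul a5 a6 (by positivity) (by positivity)
      have a9 : |(h : ℤ) * ((cc + μ * (v : ℤ)) + r)| ≤ (2 : ℤ) ^ (k + e₁ + e₂) := by
        rw [abs_mul, Nat.abs_cast, pow_add _ (k + e₁) e₂, mul_comm]
        have c1 : (h : ℤ) ≤ (2 : ℤ) ^ e₂ := by exact_mod_cast hhk.trans b1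
        exact mul_le_mul a8 c1 (by positivity) (by positivity)
      exact_mod_cast a9) (fun v => 0 < (h : ℤ) * (cc + μ * (v : ℤ) + r) ∧
      2 ∣ (h : ℤ) * (cc + μ * (v : ℤ) + r) ∧ ¬ Pr ((h : ℤ) * (cc + μ * (v : ℤ) + r)).toNat) (Classical.decPred _) (fun v _ hv => hv)
    refine (le_trans (le_of_eq ?_) key).trans ?_
    · apply sum_congr rfl
      intro v _
      congr
    · apply one_div_le_one_div_of_le (by positivity)
      apply pow_le_pow_left₀ hLN0.le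
      refine hlog.trans ?_
      rw [hkd]
      push_cast
      linarith [Nat.cast_nonneg (α := ℝ) e₁, Nat.cast_nonneg (α := ℝ) e₂]
  -- the two union bounds
  refine h4 N (by omega) (SS P N) _ hp0 E _ (fun h v => 1 ≤ h ∧ (h : ℝ) ≤ Real.log N ^ J ∧ ∃ r : ℤ, |(r : ℝ)| ≤ Real.log N ^ W ∧
      0 < h * (cc + μ * (v : ℤ) + r) ∧ 2 ∣ h * (cc + μ * (v : ℤ) + r) ∧ ¬ Pr (h * (cc + μ * (v : ℤ) + r)).toNat)
      (fun h v => Classical.propDecidable _) ?_ ?_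
  · intro h hh _
    by_cases hh1 : 1 ≤ h
    · obtain ⟨n, hn⟩ : ∃ n : ℕ, h = n := ⟨h.toNat, by omega⟩
      subst hn
      have hn1 : 1 ≤ n := by exact_mod_cast hh1
      have hn2 : (n : ℝ) ≤ Real.log N ^ J := by
        rw [Int.cast_natCast] at hh
        exact (le_abs_self _).trans hh
      refine h5 N (by omega) (SS P N) _ hp0 _ _ (fun r v => 0 < (n : ℤ) * (cc + μ * (v : ℤ) + r) ∧ 2 ∣ (n : ℤ) * (cc + μ * (v : ℤ) + r) ∧
        ¬ Pr ((n : ℤ) * (cc + μ * (v : ℤ) + r)).toNat) (fun r v => Classical.propDecidable _) (fun r _ hr => ?_) (fun v _ hv => ?_)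
      · have h6 := hone n hn1 hn2 r hr
        rw [hU'] at h6
        refine le_trans (le_of_eq ?_) h6
        apply sum_congr rfl
        intro v _
        congr
      · obtain ⟨_, _, r, hr, h7⟩ := hv
        exact ⟨r, hr, h7⟩
    · have : ∀ v ∈ SS P N, (if (1 ≤ h ∧ (h : ℝ) ≤ Real.log N ^ J ∧ ∃ r : ℤ, |(r : ℝ)| ≤ Real.log N ^ W ∧
          0 < h * (cc + μ * (v : ℤ) + r) ∧ 2 ∣ h * (cc + μ * (v : ℤ) + r) ∧ ¬ Pr (h * (cc + μ * (v : ℤ) + r)).toNat)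
          then 1 / ((SS P N).card : ℝ) else 0) = 0 := by
        intro v _
        rw [if_neg (fun hc => hh1 hc.1)]
      refine le_trans (le_of_eq (sum_congr rfl fun v hv => ?_)) (?_ : (∑ v ∈ SS P N, (0 : ℝ)) ≤ _)
      · convert this v hv
      · rw [sum_const_zero]
        positivity
  · intro v _ hEv
    obtain ⟨h, a1, a2, r, a3⟩ := hbad v hEv
    refine ⟨(h : ℤ), ?_, by exact_mod_cast a1, ?_, r, a3⟩
    · rw [Int.cast_natCast, abs_of_nonneg (Nat.cast_nonneg _)]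
      exact a2
    · rw [Int.cast_natCast]
      exact a2

end Pool.Agent.N469.TL
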