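import Pool.Agent.N469.TL.Fin
import Pool.Agent.Y885.PD1

set_option autoImplicit false

/-! Prime pairs in progressions for almost all smooth differences. -/

namespace Pool.Agent.N469.TL
open Finset
open Pool.Agent.H373R2.T7
open Pool.Agent.Y885 (TLaw)
open Pool.Agent.W93.PP (GoodD)
open Pool.Agent.N469.SM (SS mem_SS one_mem_SS SS_mono card_SS_le card_SS_pos)

theorem sm_pairs (μ : ℤ) (hμ : μ ≠ 0) (Kp Bc A Bq C U W : ℕ) (δ : ℝ) (hδ : 0 < δ) : ∃ N₀ : ℕ, ∀ N, N₀ ≤ N → ∀ P y, Cond δ Kp N P y →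
    ∀ E : ℕ → Prop, ∀ _ : DecidablePred E,
    (∃ (cc : ℤ) (X : ℕ), |cc| ≤ Bc * N ∧ (N : ℝ) ≤ X ∧ (N : ℝ) * Real.log X ^ (C + 6) ≤ X ∧ (X : ℝ) ≤ N * Real.log X ^ W ∧
      ∀ v, E v → 0 ≤ cc + μ * (v : ℤ) ∧ ¬ GoodD A Bq C X (cc + μ * (v : ℤ)).toNat) →
    ∑ v ∈ SS P N, (if E v then 1 / ((SS P N).card : ℝ) else 0) ≤ 1 / Real.log N ^ U := by
  classical
  obtain ⟨c, N1, h1⟩ := sm_lawX δ hδ Kp μ hμ W (2 * (A + 2 * Bq + C + 9 + (C + 3) + U + 1 + 2) + 6)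
  obtain ⟨N2, h2⟩ := level W
  obtain ⟨K0, h3⟩ := Pool.Agent.Y885.tl_goodD 2 3 A Bq C U 8 le_rfl (by norm_num) c
  obtain ⟨N4, h4⟩ := ev_L' ((Bc + μ.natAbs : ℕ) : ℝ)
  obtain ⟨Z, hZ⟩ : ∃ Z : ℕ, Z = 2 ^ K0 := ⟨_, rfl⟩
  refine ⟨N1 + N2 + N4 + Z + 3, fun N hN P y hP E _ hE => ?_⟩
  obtain ⟨cc, X, hcc, hNX, hX1, hX2, hbad⟩ := hE
  have hNXn : N ≤ X := by exact_mod_cast hNX
  obtain ⟨q1, q2, q3, e, q4, q5⟩ := h2 N (by omega) X hNXn hX2
  have hlaw := h1 N (by omega) P y hP.primes hP.one hP.top hP.card X hNXn hX2 1 le_rfl (Nat.one_le_pow _ _ (by omega)) cc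
  have hL4 := h4 X (by omega)
  have hLX0 : 0 < Real.log X := Real.log_pos (by exact_mod_cast (by omega : 1 < X))
  have hLN0 : 0 < Real.log N := Real.log_pos (by exact_mod_cast (by omega : 1 < N))
  have hX0 : (0 : ℝ) < X := by exact_mod_cast (by omega : 0 < X)
  have hval : ∀ v ∈ SS P N, |((cc + μ * (v : ℤ) : ℤ) : ℝ)| ≤ X / Real.log X ^ (C + 5) := by
    intro v hv
    have a1 := abs_val μ Bc N v cc hcc (mem_SS.1 hv).1.2
    have a2 : |((cc + μ * (v : ℤ) : ℤ) : ℝ)| ≤ ((Bc + μ.natAbs : ℕ) : ℝ) * N := by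
      have a3 := (Int.cast_le (R := ℝ)).2 a1
      rw [Int.cast_abs] at a3
      refine a3.trans (le_of_eq ?_)
      rw [Int.cast_mul, Int.cast_natCast, Int.cast_natCast]
    refine a2.trans ?_
    rw [le_div_iff₀ (by positivity)]
    calc ((Bc + μ.natAbs : ℕ) : ℝ) * N * Real.log X ^ (C + 5) ≤ Real.log X * N * Real.log X ^ (C + 5) := by gcongr
      _ = N * Real.log X ^ (C + 6) := by ring
      _ ≤ X := hX1
  have hkey := h3 (Nat.clog 2 (4 * X)) (by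
      rw [q4]
      have : K0 ≤ Nat.log 2 N := (Nat.le_log_iff_pow_le (by norm_num) (by omega)).2 (by rw [← hZ]; omega)
      omega) ℕ _ _ _ hlaw X q2 q1 (by
      intro v hv
      have a1 := hval v hv
      have a2 : X / Real.log X ^ (C + 5) ≤ (X : ℝ) := by
        apply div_le_self hX0.le
        apply one_le_pow₀
        have a3 := h4 X (by omega)
        have a4 : (1 : ℝ) ≤ ((Bc + μ.natAbs : ℕ) : ℝ) := by exact_mod_cast (by omega : 1 ≤ Bc + μ.natAbs)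
        linarith
      have a3 : |((cc + μ * (v : ℤ) : ℤ) : ℝ)| ≤ X := a1.trans a2
      rw [← Int.cast_abs] at a3
      rw [Nat.cast_one, one_mul]
      exact_mod_cast a3) E (Classical.decPred E) (by
      intro v hv hEv
      obtain ⟨g1, g2⟩ := hbad v hEv
      rw [Nat.cast_one, one_mul]
      exact ⟨g1, (le_abs_self _).trans (hval v hv), g2⟩)
  refine (le_trans (le_of_eq ?_) hkey).trans ?_
  · apply sum_congr rfl
    intro v _
    congr
  · apply one_div_le_one_div_of_le (by positivity)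
    apply pow_le_pow_left₀ hLN0.le
    refine (log_digits N (by omega)).1.trans ?_
    rw [q4]
    exact_mod_cast Nat.le_add_right _ _

end Pool.Agent.N469.TL
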