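import Pool.Agent.N469.TL.Var
import Pool.Agent.R501.LP1

set_option autoImplicit false

/-! Arbitrary sets of reduced classes: the least prime and the number of primes. -/

namespace Pool.Agent.N469.TL
open Finset
open Pool.Agent.H373R2.T7
open Pool.Agent.TH894.PV (G psiAP)
open Pool.Agent.R501.LP (LpG LpG0 lpg_iff lpg_of_var)
open Pool.Agent.TH894.PV (noP)

open Classical in
/-- for all sets `S` of reduced classes modulo `q` with at least `φ(q) / log ^ T q` elements there is a prime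
`p ≤ (1 + ε) φ(q) ^ 2 log q / #S` whose class is in `S`, and for all sets of reduced classes `S` and all `q ≤ x ≤ q log ^ κ q` the sum of
`Λ` over the integers `n ≤ x` with class in `S` is `#S x / φ(q)` with an error of at most `√((1 + ε) #S x log q)`. -/
def SetG (ε : ℝ) (T κ q : ℕ) : Prop :=
  ∀ S : Finset ℕ, S ⊆ (range q).filter (fun a => Nat.Coprime a q) →
    (1 ≤ S.card → (Nat.totient q : ℝ) / Real.log q ^ T ≤ S.card →
      ∃ p : ℕ, p.Prime ∧ p % q ∈ S ∧ (p : ℝ) * S.card ≤ (1 + ε) * (Nat.totient q : ℝ) ^ 2 * Real.log q) ∧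
    ∀ x : ℝ, (q : ℝ) ≤ x → x ≤ q * Real.log q ^ κ →
      (∑ a ∈ S, psiAP x q a - S.card * (x / Nat.totient q)) ^ 2 ≤ (1 + ε) * (S.card * (x * Real.log q))

lemma sets_of_var (T κ : ℕ) (ε : ℝ) (hε : 0 < ε) (hε1 : ε ≤ 1) : ∃ Q₀ : ℕ, ∀ q : ℕ, Q₀ ≤ q →
    (∀ x : ℝ, (q : ℝ) ≤ x → x ≤ q * Real.log q ^ (T + κ + 2) → |G x q - x * Real.log q| ≤ ε / 4 * (x * Real.log q)) → SetG ε T κ q := by
  classical
  obtain ⟨n1, h1⟩ := lpg_of_var (T + κ + 2) ε hε hε1
  obtain ⟨n2, h2⟩ := Pool.Agent.TH935.HM.tot_low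
  obtain ⟨n3, h3⟩ := ev_L' 16
  refine ⟨n1 + n2 + n3 + 3, fun q hq hvar S hS => ?_⟩
  have hq3 : (3 : ℝ) ≤ q := by exact_mod_cast (by omega : 3 ≤ q)
  have hq0 : (0 : ℝ) < q := by linarith
  have hL := h3 q (by omega)
  obtain ⟨L, hLd⟩ : ∃ L : ℝ, L = Real.log q := ⟨_, rfl⟩
  have hφ : (0 : ℝ) < (Nat.totient q : ℝ) := by exact_mod_cast Nat.totient_pos.2 (by omega)
  obtain ⟨φ, hφd⟩ : ∃ φ : ℝ, φ = (Nat.totient q : ℝ) := ⟨_, rfl⟩
  have hφq : φ ≤ q := by rw [hφd]; exact_mod_cast Nat.totient_le q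
  have hlow := h2 q (by omega) q (by omega) le_rfl
  have hlp := h1 q (by omega) hvar
  unfold LpG0 at hlp
  rw [← hLd] at hL hlow hvar hlp ⊢
  rw [← hφd] at hφ hlow hlp ⊢
  have hL0 : 0 < L := by linarith
  have hqL : q ≤ φ * L := by
    have e1 : L ^ (1 / 4 : ℝ) ≤ L ^ (1 / 2 : ℝ) := Real.rpow_le_rpow_of_exponent_le (by linarith) (by norm_num)
    rw [div_le_iff₀ hφ] at hlow
    have e2 : (6 * L ^ (1 / 4 : ℝ)) ≤ L := by
      have e3 : L ^ (1 / 4 : ℝ) * L ^ (3 / 4 : ℝ) = L := by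
        rw [← Real.rpow_add hL0]
        norm_num
      have e4 : (6 : ℝ) ≤ L ^ (3 / 4 : ℝ) := by
        calc (6 : ℝ) ≤ 8 := by norm_num
          _ = (16 : ℝ) ^ (3 / 4 : ℝ) := by
              rw [show (16 : ℝ) = 2 ^ (4 : ℝ) by norm_num, ← Real.rpow_mul (by norm_num)]
              norm_num
          _ ≤ L ^ (3 / 4 : ℝ) := Real.rpow_le_rpow (by norm_num) hL (by norm_num)
      have e5 : 0 ≤ L ^ (1 / 4 : ℝ) := by positivity
      nlinarith
    calc (q : ℝ) ≤ 6 * L ^ (1 / 4 : ℝ) * φ := hlow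
      _ ≤ L * φ := mul_le_mul_of_nonneg_right e2 hφ.le
      _ = φ * L := mul_comm _ _
  refine ⟨fun hS1 hS2 => ?_, fun x hx1 hx2 => ?_⟩
  · have hSr : (1 : ℝ) ≤ S.card := by exact_mod_cast hS1
    have hS0 : (0 : ℝ) < S.card := by linarith
    have hSφ : (S.card : ℝ) ≤ φ := by
      rw [hφd]
      have : S.card ≤ Nat.totient q := by
        refine (card_le_card hS).trans (le_of_eq ?_)
        rw [Nat.totient_eq_card_coprime]
        congr 1
        ext a
        rw [mem_filter, mem_filter, Nat.coprime_comm]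
      exact_mod_cast this
    obtain ⟨x, hx⟩ : ∃ x : ℝ, x = (1 + ε) * φ ^ 2 * L / S.card := ⟨_, rfl⟩
    have hxe : x * S.card = (1 + ε) * φ ^ 2 * L := by rw [hx]; field_simp
    have hxq : (q : ℝ) ≤ x := by
      refine hqL.trans ?_
      rw [hx, le_div_iff₀ hS0]
      calc φ * L * S.card ≤ φ * L * φ := mul_le_mul_of_nonneg_left hSφ (by positivity)
        _ = 1 * (φ ^ 2 * L) := by ring
        _ ≤ (1 + ε) * (φ ^ 2 * L) := mul_le_mul_of_nonneg_right (by linarith) (by positivity)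
        _ = _ := by ring
    have hxu : x ≤ q * L ^ (T + κ + 2) := by
      rw [hx, div_le_iff₀ hS0]
      rw [div_le_iff₀ (by positivity)] at hS2
      calc (1 + ε) * φ ^ 2 * L = (1 + ε) * φ * L * φ := by ring
        _ ≤ (1 + ε) * φ * L * (S.card * L ^ T) := mul_le_mul_of_nonneg_left hS2 (by positivity)
        _ = φ * (1 + ε) * L ^ (T + 1) * S.card := by ring
        _ ≤ q * L * L ^ (T + 1) * S.card := by
            gcongr
            linarith
        _ = q * L ^ (T + 2) * S.card := by ring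
        _ ≤ q * L ^ (T + κ + 2) * S.card := by
            gcongr
            · linarith
            · omega
    have hl := (hlp x hxq hxu).1
    have hx0 : 0 < x := by linarith
    have hlate : ((noP x q).card : ℝ) < S.card := by
      by_contra hcon
      push Not at hcon
      have e1 : (S.card : ℝ) * (x + φ * L) ≤ (1 + ε) * φ * (φ * L) := le_trans (mul_le_mul_of_nonneg_right hcon (by positivity)) hl
      have e2 : 0 < (S.card : ℝ) * (φ * L) := by positivity
      nlinarith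
    have hlate' : (noP x q).card < S.card := by exact_mod_cast hlate
    obtain ⟨a, haS, hano⟩ := exists_mem_notMem_of_card_lt_card hlate'
    have haS' := mem_filter.1 (hS haS)
    unfold noP at hano
    rw [mem_filter] at hano
    push Not at hano
    obtain ⟨p, hp1, hp2, hp3⟩ := hano (by simpa [mem_filter] using haS')
    refine ⟨p, hp1, ?_, ?_⟩
    · rw [hp3]
      exact haS
    · rw [← hxe]
      exact mul_le_mul_of_nonneg_right hp2 hS0.le
  · have hv := hvar x hx1 (hx2.trans (by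
      gcongr
      · linarith
      · omega))
    have hx0 : 0 < x := by linarith
    have e1 : ∑ a ∈ S, psiAP x q a - S.card * (x / φ) = ∑ a ∈ S, (psiAP x q a - x / φ) := by
      rw [sum_sub_distrib, sum_const, nsmul_eq_mul]
    rw [e1]
    have e2 : (∑ a ∈ S, (psiAP x q a - x / φ)) ^ 2 ≤ S.card * ∑ a ∈ S, (psiAP x q a - x / φ) ^ 2 := sq_sum_le_card_mul_sum_sq
    have e3 : ∑ a ∈ S, (psiAP x q a - x / φ) ^ 2 ≤ G x q := by
      unfold G
      rw [hφd]
      exact sum_le_sum_of_subset_of_nonneg hS (fun _ _ _ => sq_nonneg _)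
    have e4 : G x q ≤ (1 + ε) * (x * L) := by
      have h6 := le_abs_self (G x q - x * L)
      have h7 : 0 ≤ x * L := by positivity
      nlinarith
    calc (∑ a ∈ S, (psiAP x q a - x / φ)) ^ 2 ≤ S.card * ∑ a ∈ S, (psiAP x q a - x / φ) ^ 2 := e2
      _ ≤ S.card * ((1 + ε) * (x * L)) := mul_le_mul_of_nonneg_left (e3.trans e4) (Nat.cast_nonneg _)
      _ = _ := by ring

end Pool.Agent.N469.TL
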