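import Pool.Agent.N469.TL.Corr
import Pool.Agent.W93.TD3

set_option autoImplicit false

/-! Products of several shifted factors, for all the shifts near almost all tuples of smooth numbers. -/

namespace Pool.Agent.N469.TL
open Finset
open Pool.Agent.H373R2.T7
open Pool.Agent.Y885 (Fine)
open Pool.Agent.N469.SM (SS mem_SS one_mem_SS SS_mono card_SS_le card_SS_pos)

/-- the probability is small for each coordinate, the others being fixed -/
lemma one_coord (s Kp Bc A T U : ℕ) (μ : ℤ) (hμ : μ ≠ 0) (θ : ℕ → ℝ) (hθ : Fine θ) (δ : ℝ) (hδ : 0 < δ) :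
    ∃ N₀ : ℕ, ∀ N, N₀ ≤ N → ∀ P y, Cond δ Kp N P y → ∀ (i : Fin s) (cc : ℤ) (w : Fin s → ℤ), |cc| ≤ Bc * N →
    ∀ (L : ℕ), (L : ℝ) ≤ Real.log N ^ T → ∀ (α : Fin s → ℕ) (g : Fin L → ℕ → ℂ), (∀ j, 1 ≤ α j) →
    (∀ l n, 1 ≤ n → n ≤ Bc * N → ‖g l n‖ ≤ Real.log N ^ T) →
    ∀ E : ℕ → Prop, ∀ _ : DecidablePred E,
    (∀ v, E v → ∃ z : Fin s → ℤ, (∀ j, j ≠ i → |((z j - w j : ℤ) : ℝ)| ≤ Real.log N ^ A) ∧
      |((z i - (cc + μ * (v : ℤ)) : ℤ) : ℝ)| ≤ Real.log N ^ A ∧ ∃ l, ∃ I : Finset (Fin s), i ∉ I ∧ ∃ x : ℕ, α i * x ≤ Bc * N ∧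
        (N : ℝ) / Real.log N ^ U < ‖∑ n ∈ Icc 1 x, (g l n * ∏ j ∈ I, exI (fun n => ((θ n : ℝ) : ℂ)) (((α j * n : ℕ) : ℤ) + z j)) *
          exI (fun n => ((θ n : ℝ) : ℂ)) (((α i * n : ℕ) : ℤ) + z i)‖) →
    ∑ v ∈ SS P N, (if E v then 1 / ((SS P N).card : ℝ) else 0) ≤ 1 / Real.log N ^ U := by
  classical
  obtain ⟨N1, h1⟩ := sm_corr μ hμ Kp Bc A (T + s + (A + 1) * s) U θ hθ δ hδ
  obtain ⟨N2, h2⟩ := ev_L' 3
  refine ⟨N1 + N2, fun N hN P y hP i cc w hcc L hL α g hα hg E _ hE => ?_⟩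
  have hL3 := h2 N (by omega)
  have hex : ∀ m : ℤ, ‖exI (fun n => ((θ n : ℝ) : ℂ)) m‖ ≤ 1 := by
    intro m
    unfold exI
    split_ifs
    · exact hθ.1.1 _
    · simp
  obtain ⟨M, hM⟩ : ∃ M, M = ⌊Real.log N ^ A⌋₊ := ⟨_, rfl⟩
  have hMr : (M : ℝ) ≤ Real.log N ^ A := by rw [hM]; exact Nat.floor_le (by positivity)
  obtain ⟨J, hJ⟩ : ∃ J : ℕ, J = Fintype.card (Fin L × Finset (Fin s) × (Fin s → Fin (2 * M + 1))) := ⟨_, rfl⟩
  have e : (Fin L × Finset (Fin s) × (Fin s → Fin (2 * M + 1))) ≃ Fin J := Fintype.equivFinOfCardEq hJ.symm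
  have hJc : J = L * (2 ^ s * (2 * M + 1) ^ s) := by
    rw [hJ, Fintype.card_prod, Fintype.card_prod, Fintype.card_fin, Fintype.card_finset, Fintype.card_fin, Fintype.card_fun,
      Fintype.card_fin, Fintype.card_fin]
  have hJr : (J : ℝ) ≤ Real.log N ^ (T + s + (A + 1) * s) := by
    have a1 : (1 : ℝ) ≤ Real.log N ^ A := one_le_pow₀ (by linarith)
    have a2 : ((2 * M + 1 : ℕ) : ℝ) ≤ Real.log N ^ (A + 1) := by
      push_cast
      calc 2 * (M : ℝ) + 1 ≤ 3 * Real.log N ^ A := by linarith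
        _ ≤ Real.log N * Real.log N ^ A := mul_le_mul_of_nonneg_right hL3 (by positivity)
        _ = _ := by ring
    rw [hJc]
    push_cast at a2 ⊢
    calc (L : ℝ) * (2 ^ s * (2 * (M : ℝ) + 1) ^ s) ≤ Real.log N ^ T * (Real.log N ^ s * (Real.log N ^ (A + 1)) ^ s) := by
          gcongr
          linarith
      _ = _ := by rw [← pow_mul, pow_add, pow_add]; ring
  refine h1 N (by omega) P y hP E _ ⟨cc, J, fun _ => α i, fun r n => g (e.symm r).1 n * ∏ j ∈ (e.symm r).2.1,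
    exI (fun n => ((θ n : ℝ) : ℂ)) (((α j * n : ℕ) : ℤ) + (w j + (((e.symm r).2.2 j : ℕ) : ℤ) - M)), hcc, hJr, fun _ => hα i, ?_, ?_⟩
  · intro r n hn hn2
    rw [norm_mul]
    have g1 : ‖∏ j ∈ (e.symm r).2.1, exI (fun n => ((θ n : ℝ) : ℂ)) (((α j * n : ℕ) : ℤ) + (w j + (((e.symm r).2.2 j : ℕ) : ℤ) - M))‖ ≤ 1 := by
      rw [norm_prod]
      exact prod_le_one (fun _ _ => norm_nonneg _) (fun i _ => hex _)
    have g2 : n ≤ Bc * N := le_trans (Nat.le_mul_of_pos_left n (hα i)) hn2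
    calc _ ≤ Real.log N ^ T * 1 := mul_le_mul (hg _ n hn g2) g1 (norm_nonneg _) (by positivity)
      _ ≤ _ := by rw [mul_one]; exact pow_le_pow_right₀ (by linarith) (by omega)
  · intro v hv
    obtain ⟨z, hz, hzi, l, I, hI, x, hx, hlt⟩ := hE v hv
    refine ⟨z i - (cc + μ * (v : ℤ)), hzi, ?_⟩
    have hfl : ∀ j, j ≠ i → (z j - w j + M).toNat < 2 * M + 1 ∧ 0 ≤ z j - w j + M := by
      intro j hj
      have a1 := hz j hj
      have a2 : (z j - w j).natAbs ≤ M := by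
        rw [hM]
        apply Nat.le_floor
        rw [Nat.cast_natAbs, Int.cast_abs]
        exact a1
      omega
    refine ⟨e (l, I, fun j => if hj : j ≠ i then ⟨(z j - w j + M).toNat, (hfl j hj).1⟩ else ⟨0, by omega⟩), x, hx, ?_⟩
    refine lt_of_lt_of_eq hlt ?_
    congr 1
    apply sum_congr rfl
    intro n _
    simp only [Equiv.symm_apply_apply]
    congr 1
    · congr 1
      apply prod_congr rfl
      intro j hj
      have hji : j ≠ i := fun h => hI (h ▸ hj)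
      rw [dif_pos hji]
      congr 2
      simp only
      have := (hfl j hji).2
      rw [Int.toNat_of_nonneg this]
      ring
    · congr 2
      ring

end Pool.Agent.N469.TL
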