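import Pool.Agent.N469.TL.Tup

set_option autoImplicit false

/-! Products of several shifted factors: the number of exceptional tuples. -/

namespace Pool.Agent.N469.TL
open Finset
open Pool.Agent.H373R2.T7
open Pool.Agent.Y885 (Fine)
open Pool.Agent.N469.SM (SS mem_SS one_mem_SS SS_mono card_SS_le card_SS_pos)

theorem sm_tuples (s Kp Bc A T U : ℕ) (μ : Fin s → ℤ) (hμ : ∀ i, μ i ≠ 0) (θ : ℕ → ℝ) (hθ : Fine θ) (δ : ℝ) (hδ : 0 < δ) :
    ∃ N₀ : ℕ, ∀ N, N₀ ≤ N → ∀ (P : Fin s → Finset ℕ) (y : Fin s → ℕ), (∀ i, Cond δ Kp N (P i) (y i)) → ∀ cc : Fin s → ℤ,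
    (∀ i, |cc i| ≤ Bc * N) → ∀ (L : ℕ), (L : ℝ) ≤ Real.log N ^ T → ∀ (α : Fin s → ℕ) (g : Fin L → ℕ → ℂ), (∀ j, 1 ≤ α j) →
    (∀ l n, 1 ≤ n → n ≤ Bc * N → ‖g l n‖ ≤ Real.log N ^ T) →
    ∀ E : (Fin s → ℕ) → Prop, ∀ _ : DecidablePred E,
    (∀ v, E v → ∃ z : Fin s → ℤ, (∀ j, |((z j - (cc j + μ j * (v j : ℤ)) : ℤ) : ℝ)| ≤ Real.log N ^ A) ∧
      ∃ l, ∃ I : Finset (Fin s), I.Nonempty ∧ ∃ x : ℕ, (∀ i ∈ I, α i * x ≤ Bc * N) ∧
        (N : ℝ) / Real.log N ^ U < ‖∑ n ∈ Icc 1 x, g l n * ∏ j ∈ I, exI (fun n => ((θ n : ℝ) : ℂ)) (((α j * n : ℕ) : ℤ) + z j)‖) →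
    (((Fintype.piFinset fun i => SS (P i) N).filter E).card : ℝ) ≤ (∏ i, ((SS (P i) N).card : ℝ)) / Real.log N ^ U := by
  classical
  choose N1 h1 using fun i => one_coord s Kp Bc A T (U + 1) (μ i) (hμ i) θ hθ δ hδ
  obtain ⟨N2, h2⟩ := ev_L' ((s + 1 : ℕ) : ℝ)
  refine ⟨∑ i, N1 i + N2 + 1, fun N hN P y hP cc hcc L hL α g hα hg E _ hE => ?_⟩
  have hN1 : ∀ i, N1 i ≤ N := fun i => by
    have := single_le_sum (f := N1) (fun _ _ => Nat.zero_le _) (mem_univ i)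
    omega
  have hLs := h2 N (by omega)
  have hL1 : (1 : ℝ) ≤ Real.log N := le_trans (by exact_mod_cast (by omega : 1 ≤ s + 1)) hLs
  have hL0 : 0 < Real.log N := by linarith
  have hN0 : (0 : ℝ) < N := by exact_mod_cast (by omega : 0 < N)
  have hS : ∀ i, (0 : ℝ) < (SS (P i) N).card := fun i => by exact_mod_cast card_SS_pos (P i) (by omega)
  obtain ⟨Ω, hΩ⟩ : ∃ Ω : Fin s → Finset ℕ, Ω = fun i => SS (P i) N := ⟨_, rfl⟩
  obtain ⟨p, hp⟩ : ∃ p : Fin s → ℕ → ℝ, p = fun i _ => 1 / ((SS (P i) N).card : ℝ) := ⟨_, rfl⟩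
  have hsum : ∀ i, ∑ v ∈ Ω i, p i v = 1 := by
    intro i
    rw [hΩ, hp]
    simp only
    rw [sum_const, nsmul_eq_mul]
    have := (hS i).ne'
    field_simp
  have hp0 : ∀ i v, 0 ≤ p i v := by
    intro i v
    rw [hp]
    exact div_nonneg zero_le_one (hS i).le
  obtain ⟨bad, hbad⟩ : ∃ bad : Fin s → (Fin s → ℕ) → Prop, bad = fun i v =>
      ∃ z : Fin s → ℤ, (∀ j, |((z j - (cc j + μ j * (v j : ℤ)) : ℤ) : ℝ)| ≤ Real.log N ^ A) ∧
      ∃ l, ∃ I : Finset (Fin s), i ∉ I ∧ ∃ x : ℕ, α i * x ≤ Bc * N ∧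
        (N : ℝ) / Real.log N ^ (U + 1) < ‖∑ n ∈ Icc 1 x, (g l n * ∏ j ∈ I, exI (fun n => ((θ n : ℝ) : ℂ)) (((α j * n : ℕ) : ℤ) + z j)) *
          exI (fun n => ((θ n : ℝ) : ℂ)) (((α i * n : ℕ) : ℤ) + z i)‖ := ⟨_, rfl⟩
  have hb1 : ∀ i : Fin s, ∑ ω ∈ Fintype.piFinset Ω, (∏ i, p i (ω i)) * (if bad i ω then (1 : ℝ) else 0) ≤ 1 / Real.log N ^ (U + 1) := by
    intro i
    rw [← Pool.Agent.W93.TD.avg_w Ω p hsum i (fun ω => if bad i ω then (1 : ℝ) else 0)]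
    have hm1 : ∀ m ∈ Fintype.piFinset Ω, (∏ j, p j (m j)) *
        ∑ v ∈ Ω i, p i v * (if bad i (Function.update m i v) then (1 : ℝ) else 0) ≤ (∏ j, p j (m j)) * (1 / Real.log N ^ (U + 1)) := by
      intro m hm
      apply mul_le_mul_of_nonneg_left _ (prod_nonneg fun j _ => hp0 j _)
      have key := h1 i N (hN1 i) (P i) (y i) (hP i) i (cc i) (fun j => cc j + μ j * (m j : ℤ)) (hcc i) L hL α g hα hg
        (fun v => bad i (Function.update m i v)) (Classical.decPred _) (by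
          intro v hv
          rw [hbad] at hv
          obtain ⟨z, hz, l, I, hI, x, hx, hlt⟩ := hv
          refine ⟨z, fun j hj => ?_, ?_, l, I, hI, x, hx, hlt⟩
          · have := hz j
            rwa [Function.update_of_ne hj] at this
          · have := hz i
            rwa [Function.update_self] at this)
      refine le_trans (le_of_eq ?_) key
      rw [hΩ, hp]
      apply sum_congr rfl
      intro v _
      simp only [mul_ite, mul_one, mul_zero]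
    refine (sum_le_sum hm1).trans (le_of_eq ?_)
    rw [← sum_mul, Pool.Agent.W93.TD.total_w Ω p hsum, one_mul]
  have hpt : ∀ ω ∈ Fintype.piFinset Ω, (∏ i, p i (ω i)) * (if E ω then (1 : ℝ) else 0) ≤
      ∑ i : Fin s, (∏ i, p i (ω i)) * (if bad i ω then (1 : ℝ) else 0) := by
    intro ω _
    have hPP : 0 ≤ ∏ i, p i (ω i) := prod_nonneg fun j _ => hp0 j _
    have t1 : ∀ i ∈ (univ : Finset (Fin s)), 0 ≤ (∏ i, p i (ω i)) * (if bad i ω then (1 : ℝ) else 0) := fun i _ =>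
      mul_nonneg hPP (by split_ifs <;> norm_num)
    by_cases hEω : E ω
    swap
    · rw [if_neg hEω, mul_zero]
      exact sum_nonneg t1
    rw [if_pos hEω, mul_one]
    obtain ⟨z, hz, l, I, ⟨i, hiI⟩, x, hx, hlt⟩ := hE ω hEω
    have hbi : bad i ω := by
      rw [hbad]
      refine ⟨z, hz, l, I.erase i, notMem_erase i I, x, hx i hiI, ?_⟩
      refine lt_of_le_of_lt ?_ (lt_of_lt_of_le hlt (le_of_eq ?_))
      · apply div_le_div_of_nonneg_left hN0.le (by positivity)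
        exact pow_le_pow_right₀ hL1 (by omega)
      · congr 1
        apply sum_congr rfl
        intro n _
        rw [← mul_prod_erase I _ hiI]
        ring
    have h3 := single_le_sum t1 (mem_univ i)
    rwa [if_pos hbi, mul_one] at h3
  have htot : ∑ ω ∈ Fintype.piFinset Ω, (∏ i, p i (ω i)) * (if E ω then (1 : ℝ) else 0) ≤ 1 / Real.log N ^ U := by
    refine (sum_le_sum hpt).trans ?_
    rw [sum_comm]
    refine (sum_le_sum fun i _ => hb1 i).trans ?_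
    rw [sum_const, card_univ, Fintype.card_fin, nsmul_eq_mul, mul_one_div, div_le_div_iff₀ (by positivity) (by positivity), one_mul, pow_succ,
      mul_comm]
    apply mul_le_mul_of_nonneg_left _ (by positivity)
    push_cast at hLs
    linarith
  have hconst : ∀ ω : Fin s → ℕ, ∏ i, p i (ω i) = 1 / ∏ i, ((SS (P i) N).card : ℝ) := by
    intro ω
    rw [hp]
    simp only [one_div, prod_inv_distrib]
  simp only [hconst] at htot
  rw [← mul_sum, ← Finset.sum_filter, sum_const, nsmul_eq_mul, mul_one, hΩ] at htot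
  have hPi : (0 : ℝ) < ∏ i, ((SS (P i) N).card : ℝ) := prod_pos fun i _ => hS i
  rw [one_div_mul_eq_div, div_le_iff₀ hPi] at htot
  refine htot.trans (le_of_eq ?_)
  ring

end Pool.Agent.N469.TL
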