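import Pool.Agent.N469.TL.Hooley2

set_option autoImplicit false

/-! Properties of the modulus which follow from Hooley's asymptotic, for almost all smooth moduli. -/

namespace Pool.Agent.N469.TL
open Finset
open Pool.Agent.H373R2.T7
open Pool.Agent.TH894.PV (G)
open Pool.Agent.N469.SM (SS mem_SS one_mem_SS SS_mono card_SS_le card_SS_pos)

theorem sm_var (μ : ℤ) (hμ : μ ≠ 0) (Kp Bc A κ U : ℕ) (ε : ℝ) (hε : 0 < ε) (hε1 : ε ≤ 1) (Pr : ℕ → Prop)
    (hPr : ∃ Q₀ : ℕ, ∀ q : ℕ, Q₀ ≤ q → (∀ x : ℝ, (q : ℝ) ≤ x → x ≤ q * Real.log q ^ κ → |G x q - x * Real.log q| ≤ ε * (x * Real.log q)) → Pr q)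
    (δ : ℝ) (hδ : 0 < δ) :
    ∃ N₀ : ℕ, ∀ N, N₀ ≤ N → ∀ P y, Cond δ Kp N P y → ∀ E : ℕ → Prop, ∀ _ : DecidablePred E,
    (∃ cc : ℤ, |cc| ≤ Bc * N ∧ ∀ v, E v → ∃ r : ℤ, |(r : ℝ)| ≤ Real.log N ^ A ∧ 1 ≤ cc + μ * (v : ℤ) + r ∧
      ¬ Pr (cc + μ * (v : ℤ) + r).toNat) →
    ∑ v ∈ SS P N, (if E v then 1 / ((SS P N).card : ℝ) else 0) ≤ 1 / Real.log N ^ U := by
  classical
  obtain ⟨N1, h1⟩ := near A U
  obtain ⟨W, N2, h2⟩ := sm_small δ hδ Kp μ hμ (U + A + 2)
  obtain ⟨N3, h3⟩ := sm_hooley μ hμ Kp (Bc + 1) (κ + 1) (U + A + 2) ε hε hε1 δ hδ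
  obtain ⟨Q₀, h4⟩ := hPr
  obtain ⟨N5, h5⟩ := ev_L' ((2 ^ κ + 16 : ℕ) : ℝ)
  obtain ⟨N6, h6⟩ := ev_log' W ((Q₀ + Bc + μ.natAbs + 3 : ℕ) : ℝ)
  obtain ⟨N7, h7⟩ := ev_log' A 1
  refine ⟨N1 + N2 + N3 + N5 + N6 + N7 + Bc + μ.natAbs + 3, fun N hN P y hP E _ hE => ?_⟩
  obtain ⟨cc, hcc, hbad⟩ := hE
  have hL4 := h5 N (by omega)
  have hL1 : (2 : ℝ) ^ κ + 16 ≤ Real.log N := by exact_mod_cast hL4
  have h2κ : (0 : ℝ) < (2 : ℝ) ^ κ := by positivity
  have hLN0 : 0 < Real.log N := by linarith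
  have hN0 : (0 : ℝ) < N := by exact_mod_cast (by omega : 0 < N)
  have hp0 : (0 : ℝ) ≤ 1 / ((SS P N).card : ℝ) := by positivity
  obtain ⟨HB, hHB⟩ : ∃ HB : ℤ → ℕ → Prop, HB = fun c (v : ℕ) => ∃ r : ℤ, |(r : ℝ)| ≤ Real.log N ^ (κ + 1) ∧ 1 ≤ c + μ * (v : ℤ) + r ∧
      ∃ x : ℝ, (((c + μ * (v : ℤ) + r).toNat : ℕ) : ℝ) ≤ x ∧ x ≤ (((c + μ * (v : ℤ) + r).toNat : ℕ) : ℝ) * Real.log N ^ (κ + 1) ∧
        ¬ |G x (c + μ * (v : ℤ) + r).toNat - x * Real.log (((c + μ * (v : ℤ) + r).toNat : ℕ) : ℝ)| ≤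
          ε * (x * Real.log (((c + μ * (v : ℤ) + r).toNat : ℕ) : ℝ)) := ⟨_, rfl⟩
  refine h1 N (by omega) (SS P N) _ hp0 E _ (fun r v => (1 ≤ (cc + r) + μ * (v : ℤ) ∧ (((cc + r) + μ * (v : ℤ) : ℤ) : ℝ) * Real.log N ^ W < N) ∨
    HB (cc + r) v) (fun r v => Classical.propDecidable _) ?_ ?_
  · intro r _ hr
    have a1 := h2 N (by omega) P y hP.primes hP.one hP.top hP.card (cc + r)
    have a2 := h3 N (by omega) P y hP (HB (cc + r)) (Classical.decPred _) ⟨cc + r, by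
      have : |cc + r| ≤ |cc| + |r| := abs_add_le _ _
      push_cast
      linarith, fun v hv => by rw [hHB] at hv; exact hv⟩
    have a3 : ∑ v ∈ SS P N, (if (1 ≤ (cc + r) + μ * (v : ℤ) ∧ (((cc + r) + μ * (v : ℤ) : ℤ) : ℝ) * Real.log N ^ W < N) ∨
        HB (cc + r) v then 1 / ((SS P N).card : ℝ) else 0) ≤
        ∑ v ∈ SS P N, (if 1 ≤ (cc + r) + μ * (v : ℤ) ∧ (((cc + r) + μ * (v : ℤ) : ℤ) : ℝ) * Real.log N ^ W < N then 1 / ((SS P N).card : ℝ) else 0) +
        ∑ v ∈ SS P N, (if HB (cc + r) v then 1 / ((SS P N).card : ℝ) else 0) := by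
      rw [← sum_add_distrib]
      apply sum_le_sum
      intro v _
      by_cases c1 : 1 ≤ (cc + r) + μ * (v : ℤ) ∧ (((cc + r) + μ * (v : ℤ) : ℤ) : ℝ) * Real.log N ^ W < N
      · rw [if_pos (Or.inl c1), if_pos c1]
        have : (0 : ℝ) ≤ (if HB (cc + r) v then 1 / ((SS P N).card : ℝ) else 0) := by
          split_ifs <;> first | exact hp0 | exact le_rfl
        linarith
      · by_cases c2 : HB (cc + r) v
        · rw [if_pos (Or.inr c2), if_neg c1, if_pos c2, zero_add]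
        · rw [if_neg (by tauto), if_neg c1, if_neg c2, zero_add]
    refine (le_trans (le_of_eq ?_) (a3.trans (add_le_add a1 (le_trans (le_of_eq ?_) a2)))).trans ?_
    · apply sum_congr rfl
      intro v _
      congr
    · apply sum_congr rfl
      intro v _
      congr
    · rw [← two_mul, mul_one_div, div_le_div_iff₀ (by positivity) (by positivity), one_mul,
        show Real.log N ^ (U + A + 2) = Real.log N * Real.log N ^ (U + A + 1) by ring]
      have : 0 < Real.log N ^ (U + A + 1) := by positivity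
      nlinarith
  · intro v hv hEv
    obtain ⟨r, hr, hpos, hlp⟩ := hbad v hEv
    refine ⟨r, hr, ?_⟩
    rw [show cc + r + μ * (v : ℤ) = cc + μ * (v : ℤ) + r by ring]
    by_cases c1 : (((cc + μ * (v : ℤ) + r : ℤ) : ℝ)) * Real.log N ^ W < N
    · exact Or.inl ⟨hpos, c1⟩
    · right
      push Not at c1
      by_contra hcon
      apply hlp
      obtain ⟨q, hq⟩ : ∃ q : ℕ, q = (cc + μ * (v : ℤ) + r).toNat := ⟨_, rfl⟩
      have hqQ : (q : ℤ) = cc + μ * (v : ℤ) + r := by rw [hq]; exact Int.toNat_of_nonneg (by omega)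
      have hqr : ((cc + μ * (v : ℤ) + r : ℤ) : ℝ) = (q : ℝ) := by rw [← hqQ]; push_cast; rfl
      rw [← hq]
      rw [hqr] at c1
      have hW0 : 0 < Real.log N ^ W := by positivity
      have hqbig : Q₀ + 3 ≤ q := by
        have b1 := h6 N (by omega)
        by_contra hc
        push Not at hc
        have b2 : (q : ℝ) ≤ ((Q₀ + Bc + μ.natAbs + 3 : ℕ) : ℝ) := by exact_mod_cast (by omega : q ≤ Q₀ + Bc + μ.natAbs + 3)
        have b3 : (q : ℝ) * Real.log N ^ W ≤ √N := (mul_le_mul_of_nonneg_right b2 hW0.le).trans b1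
        have b4 : √(N : ℝ) < N := by
          rw [Real.sqrt_lt' hN0]
          have : (1 : ℝ) < N := by exact_mod_cast (by omega : 1 < N)
          nlinarith
        linarith
      have hq0 : (0 : ℝ) < q := by exact_mod_cast (by omega : 0 < q)
      have hlogq : Real.log q ^ κ ≤ Real.log N ^ (κ + 1) := by
        have b1 : (q : ℝ) ≤ (N : ℝ) ^ 2 := by
          have c1 := abs_val μ Bc N v cc hcc (mem_SS.1 hv).1.2
          have c3 : |(r : ℝ)| ≤ N := by
            refine hr.trans ?_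
            have a1 := h7 N (by omega)
            rw [one_mul] at a1
            refine a1.trans ?_
            rw [Real.sqrt_le_left (by positivity)]
            have : (1 : ℝ) ≤ N := by exact_mod_cast (by omega : 1 ≤ N)
            nlinarith
          have c4 : |(q : ℝ)| ≤ ((Bc + μ.natAbs : ℕ) : ℝ) * N + N := by
            rw [← hqr, Int.cast_add]
            refine (abs_add_le _ _).trans (add_le_add ?_ c3)
            rw [← Int.cast_abs]
            have := (Int.cast_le (R := ℝ)).2 c1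
            refine this.trans (le_of_eq ?_)
            rw [Int.cast_mul, Int.cast_natCast, Int.cast_natCast]
          have c5 := (le_abs_self _).trans c4
          have c6 : ((Bc + μ.natAbs : ℕ) : ℝ) + 1 ≤ N := by exact_mod_cast (by omega : Bc + μ.natAbs + 1 ≤ N)
          nlinarith
        have b2 := Real.log_le_log hq0 b1
        rw [Real.log_pow] at b2
        push_cast at b2
        have b3 : 0 ≤ Real.log q := Real.log_natCast_nonneg _
        calc Real.log q ^ κ ≤ (2 * Real.log N) ^ κ := pow_le_pow_left₀ b3 b2 _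
          _ = 2 ^ κ * Real.log N ^ κ := mul_pow _ _ _
          _ ≤ Real.log N * Real.log N ^ κ := by
              apply mul_le_mul_of_nonneg_right _ (by positivity)
              linarith
          _ = _ := by ring
      apply h4 q (by omega)
      intro x hx1 hx2
      by_contra hc
      apply hcon
      rw [hHB]
      refine ⟨0, by rw [Int.cast_zero, abs_zero]; positivity, by rw [add_zero]; rw [show cc + r + μ * (v : ℤ) = cc + μ * (v : ℤ) + r by ring]; exact hpos, x, ?_⟩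
      rw [add_zero, show cc + r + μ * (v : ℤ) = cc + μ * (v : ℤ) + r by ring, ← hq]
      exact ⟨hx1, hx2.trans (mul_le_mul_of_nonneg_left hlogq hq0.le), hc⟩

end Pool.Agent.N469.TL
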